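import Pool.Agent.HU85.Tools
import Mathlib

/-!
Schwarz-Pick inequality for the derivative, logarithms on the disc.
-/

set_option autoImplicit false

open Complex Metric Set Filter Topology
open scoped ComplexConjugate

namespace Pool.Agent.HU85

/-- Schwarz-Pick inequality for the derivative. -/
theorem schwarz_pick {g : ℂ → ℂ} (hg : DifferentiableOn ℂ g (ball 0 1))
    (hg1 : ∀ z ∈ ball (0:ℂ) 1, ‖g z‖ ≤ 1) {z : ℂ} (hz : ‖z‖ < 1) :
    (1 - ‖z‖ ^ 2) * ‖deriv g z‖ ≤ 1 - ‖g z‖ ^ 2 := by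
  have hzb : z ∈ ball (0:ℂ) 1 := by simpa using hz
  have hz2 : 0 < 1 - ‖z‖ ^ 2 := by nlinarith [norm_nonneg z]
  rcases lt_or_eq_of_le (hg1 z hzb) with hlt | heq
  · -- interior case
    set c := g z with hc
    set T : ℂ → ℂ := fun x => (x + z) / (1 + conj z * x) with hT
    set H : ℂ → ℂ := fun x => (g (T x) - c) / (1 - conj c * g (T x)) with hH
    have hTb : ∀ x ∈ ball (0:ℂ) 1, T x ∈ ball (0:ℂ) 1 := by
      intro x hx
      rw [mem_ball_zero_iff] at hx ⊢
      have h1 := one_add_ne hz hx.le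
      have h2 : 0 < ‖1 + conj z * x‖ := norm_pos_iff.mpr h1
      simp only [hT]
      rw [norm_div, div_lt_one h2]
      have h3 := pick_identity z (-x)
      have h4 : 0 < (1 - ‖z‖ ^ 2) * (1 - ‖-x‖ ^ 2) := by
        apply mul_pos hz2
        rw [norm_neg]; nlinarith [norm_nonneg x]
      have h5 : ‖1 - conj z * -x‖ = ‖1 + conj z * x‖ := by congr 1; ring
      have h6 : ‖-x - z‖ = ‖x + z‖ := by rw [← norm_neg]; congr 1; ring
      rw [h5, h6] at h3
      nlinarith [norm_nonneg (x + z)]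
    have hTd : ∀ x ∈ ball (0:ℂ) 1, HasDerivAt T ((1 * (1 + conj z * x) - (x + z) * conj z) /
        (1 + conj z * x) ^ 2) x := by
      intro x hx
      rw [mem_ball_zero_iff] at hx
      have h1 : HasDerivAt (fun x : ℂ => x + z) 1 x := (hasDerivAt_id x).add_const z
      have h2 : HasDerivAt (fun x : ℂ => 1 + conj z * x) (conj z) x := by
        simpa using ((hasDerivAt_id x).const_mul (conj z)).const_add 1
      exact h1.div h2 (one_add_ne hz hx.le)
    have hgT : ∀ x ∈ ball (0:ℂ) 1, ‖g (T x)‖ ≤ 1 := fun x hx => hg1 _ (hTb x hx)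
    have hgTd : ∀ x ∈ ball (0:ℂ) 1, HasDerivAt (fun x => g (T x)) (deriv g (T x) *
        ((1 * (1 + conj z * x) - (x + z) * conj z) / (1 + conj z * x) ^ 2)) x := by
      intro x hx
      exact (hasDerivAt_of hg (hTb x hx)).comp x (hTd x hx)
    have hHd : ∀ x ∈ ball (0:ℂ) 1, DifferentiableAt ℂ H x := by
      intro x hx
      have h1 := (hgTd x hx).differentiableAt
      exact (h1.sub_const c).div ((h1.const_mul (conj c)).const_sub 1) (one_sub_ne hlt (hgT x hx))
    have h0b : (0:ℂ) ∈ ball (0:ℂ) 1 := by simp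
    have hT0 : T 0 = z := by simp [hT]
    have hH0 : H 0 = 0 := by simp [hH, hT0, ← hc]
    have hmaps : MapsTo H (ball 0 1) (closedBall (H 0) 1) := by
      intro x hx
      rw [hH0, mem_closedBall_zero_iff]
      exact moeb_le hlt (hgT x hx)
    have hder := norm_deriv_le_one_of_mapsTo_ball
      (fun x hx => (hHd x hx).differentiableWithinAt) hmaps one_pos
    have hHder : HasDerivAt H (deriv g z * (1 - ‖z‖ ^ 2) / (1 - ‖c‖ ^ 2)) 0 := by
      have h1 := hgTd 0 h0b
      have h2 := (h1.sub_const c).div ((h1.const_mul (conj c)).const_sub 1)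
        (one_sub_ne hlt (hgT 0 h0b))
      refine h2.congr_deriv ?_
      simp only [hT0, ← hc]
      have h3 : (1:ℂ) - conj c * c ≠ 0 := one_sub_ne hlt hlt.le
      have h4 : ((‖z‖:ℂ)) ^ 2 = conj z * z := by
        rw [mul_comm, Complex.mul_conj, Complex.normSq_eq_norm_sq]
        push_cast; ring
      have h5 : ((‖c‖:ℂ)) ^ 2 = conj c * c := by
        rw [mul_comm, Complex.mul_conj, Complex.normSq_eq_norm_sq]
        push_cast; ring
      rw [h4, h5]
      generalize hdc : (1:ℂ) - conj c * c = dc at *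
      field_simp
      simp
      ring
    rw [hHder.deriv] at hder
    have hc2 : 0 < 1 - ‖c‖ ^ 2 := by nlinarith [norm_nonneg c]
    have e1 : ‖deriv g z * (1 - (‖z‖:ℂ) ^ 2) / (1 - (‖c‖:ℂ) ^ 2)‖ =
        ‖deriv g z‖ * (1 - ‖z‖ ^ 2) / (1 - ‖c‖ ^ 2) := by
      have h6 : (1 - (‖z‖:ℂ) ^ 2) = ((1 - ‖z‖ ^ 2 : ℝ) : ℂ) := by push_cast; ring
      have h7 : (1 - (‖c‖:ℂ) ^ 2) = ((1 - ‖c‖ ^ 2 : ℝ) : ℂ) := by push_cast; ring
      rw [h6, h7, norm_div, norm_mul, Complex.norm_real, Complex.norm_real, Real.norm_eq_abs,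
        Real.norm_eq_abs, abs_of_pos hz2, abs_of_pos hc2]
    rw [e1, div_le_one hc2] at hder
    linarith
  · -- boundary case: `g` is constant
    have hmax : IsMaxOn (norm ∘ g) (ball 0 1) z := by
      intro x hx
      simp only [Function.comp_apply, mem_ofPred_eq]
      rw [heq]; exact hg1 x hx
    have hconst := Complex.eqOn_of_isPreconnected_of_isMaxOn_norm
      (convex_ball (0:ℂ) 1).isPreconnected isOpen_ball hg hzb hmax
    have hd0 : deriv g z = 0 := by
      have : g =ᶠ[nhds z] fun _ => g z := by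
        filter_upwards [isOpen_ball.mem_nhds hzb] with x hx
        exact hconst hx
      rw [this.deriv_eq]; simp
    rw [hd0, heq]; simp

/-- logarithm of a nonvanishing function on the disc -/
theorem exists_log {F : ℂ → ℂ} (hF : DifferentiableOn ℂ F (ball 0 1))
    (hne : ∀ z ∈ ball (0:ℂ) 1, F z ≠ 0) (h0 : F 0 = 1) :
    ∃ L : ℂ → ℂ, L 0 = 0 ∧ (∀ z : ℂ, ‖z‖ < 1 → HasDerivAt L (deriv F z / F z) z) ∧
      ∀ z : ℂ, ‖z‖ < 1 → exp (L z) = F z := by
  have hp : DifferentiableOn ℂ (fun z => deriv F z / F z) (ball 0 1) :=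
    (hF.deriv isOpen_ball).div hF hne
  obtain ⟨L, hL0, hL⟩ := (hp.isExactOn_ball).with_val_at 0 0
  have h0b : (0:ℂ) ∈ ball (0:ℂ) 1 := by simp
  refine ⟨L, hL0, fun z hz => hL z (by simpa using hz), ?_⟩
  have hconst : ∀ z ∈ ball (0:ℂ) 1, F z * exp (-L z) = F 0 * exp (-L 0) := by
    intro z hz
    apply (convex_ball (0:ℂ) 1).is_const_of_fderivWithin_eq_zero (𝕜 := ℂ)
      (f := fun z => F z * exp (-L z)) ?_ ?_ hz h0b
    · intro x hx
      exact ((hasDerivAt_of hF hx).mul (hL x hx).neg.cexp).differentiableAt.differentiableWithinAt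
    · intro x hx
      have h1 := (hasDerivAt_of hF hx).mul (hL x hx).neg.cexp
      have h2 : HasDerivAt (fun z => F z * exp (-L z)) 0 x := by
        refine h1.congr_deriv ?_
        have := hne x hx
        field_simp
        ring
      have h3 := h2.hasFDerivAt.hasFDerivWithinAt (s := ball (0:ℂ) 1)
      rw [h3.fderivWithin (isOpen_ball.uniqueDiffWithinAt hx)]
      ext; simp
  intro z hz
  have h1 := hconst z (by simpa using hz)
  rw [hL0, h0, neg_zero, Complex.exp_zero, mul_one, Complex.exp_neg] at h1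
  have h2 : exp (L z) ≠ 0 := Complex.exp_ne_zero _
  field_simp at h1
  exact h1.symm

end Pool.Agent.HU85
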