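import Mathlib

/-!
Tools for harmonic univalent functions: integrated derivative bounds, Möbius maps,
Schwarz-Pick inequalities, numerical bounds.
-/

set_option autoImplicit false

open Complex Metric Set
open scoped ComplexConjugate

namespace Pool.Agent.HU85

/-- Integrated derivative bound along a path. -/
theorem path_le {k k' : ℝ → ℂ} {B B' : ℝ → ℝ}
    (hk : ∀ s ∈ Icc (0:ℝ) 1, HasDerivAt k (k' s) s) (hB : ∀ s, HasDerivAt B (B' s) s)
    (h : ∀ s ∈ Icc (0:ℝ) 1, ‖k' s‖ ≤ B' s) (h0 : ‖k 0‖ ≤ B 0) : ‖k 1‖ ≤ B 1 := by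
  have := image_norm_le_of_norm_deriv_right_le_deriv_boundary (f := k) (f' := k') (a := 0) (b := 1)
    (fun x hx => (hk x hx).continuousAt.continuousWithinAt)
    (fun x hx => (hk x (Ico_subset_Icc_self hx)).hasDerivWithinAt) h0 hB
    (fun x hx => h x (Ico_subset_Icc_self hx))
  exact this (right_mem_Icc.2 zero_le_one)

/-- Integrated derivative bound along rays. -/
theorem ray_le {φ φ' : ℂ → ℂ} {B B' : ℝ → ℝ} {v : ℂ}
    (hφ : ∀ z : ℂ, ‖z‖ ≤ ‖v‖ → HasDerivAt φ (φ' z) z) (hB : ∀ t, HasDerivAt B (B' t) t)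
    (hb : ∀ z : ℂ, ‖z‖ ≤ ‖v‖ → ‖φ' z‖ ≤ B' ‖z‖) (h0 : φ 0 = 0) (hB0 : 0 ≤ B 0) :
    ‖φ v‖ ≤ B ‖v‖ := by
  have hmem : ∀ s ∈ Icc (0:ℝ) 1, ‖(s:ℂ) * v‖ ≤ ‖v‖ := by
    intro s hs
    rw [norm_mul, Complex.norm_real, Real.norm_of_nonneg hs.1]
    exact mul_le_of_le_one_left (norm_nonneg _) hs.2
  have h1 := path_le (k := fun s : ℝ => φ ((s:ℂ) * v)) (k' := fun s : ℝ => φ' ((s:ℂ) * v) * v)
    (B := fun s => B (s * ‖v‖)) (B' := fun s => B' (s * ‖v‖) * ‖v‖) ?_ ?_ ?_ ?_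
  · simpa using h1
  · intro s hs
    have h2 : HasDerivAt (fun s : ℝ => (s:ℂ) * v) v s := by
      simpa using (Complex.ofRealCLM.hasDerivAt (x := s)).mul_const v
    have h3 := (hφ _ (hmem s hs)).scomp s h2
    refine h3.congr_deriv ?_
    rw [smul_eq_mul, mul_comm]
  · intro s
    have h2 : HasDerivAt (fun s : ℝ => s * ‖v‖) ‖v‖ s := by
      simpa using (hasDerivAt_id s).mul_const ‖v‖
    exact (hB _).comp s h2
  · intro s hs
    rw [norm_mul]
    have h2 := hb _ (hmem s hs)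
    rw [norm_mul, Complex.norm_real, Real.norm_of_nonneg hs.1] at h2
    exact mul_le_mul_of_nonneg_right h2 (norm_nonneg _)
  · simpa [h0] using hB0

theorem one_sub_ne {z w : ℂ} (hz : ‖z‖ < 1) (hw : ‖w‖ ≤ 1) : 1 - conj z * w ≠ 0 := by
  intro h
  have h1 : ‖conj z * w‖ < 1 := by
    rw [norm_mul, RCLike.norm_conj]
    nlinarith [norm_nonneg z, norm_nonneg w]
  have : conj z * w = 1 := by linear_combination -h
  rw [this] at h1
  simp at h1

theorem one_add_ne {z w : ℂ} (hz : ‖z‖ < 1) (hw : ‖w‖ ≤ 1) : 1 + conj z * w ≠ 0 := by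
  have := one_sub_ne (z := z) (w := -w) hz (by simpa using hw)
  simpa using this

theorem pick_identity (z w : ℂ) :
    ‖1 - conj z * w‖ ^ 2 - ‖w - z‖ ^ 2 = (1 - ‖z‖ ^ 2) * (1 - ‖w‖ ^ 2) := by
  rw [Complex.sq_norm, Complex.sq_norm, Complex.sq_norm, Complex.sq_norm, normSq_apply,
    normSq_apply, normSq_apply, normSq_apply]
  simp
  ring

theorem pick_identity' (z w : ℂ) :
    ‖1 + conj z * w‖ ^ 2 - ‖w + z‖ ^ 2 = (1 - ‖z‖ ^ 2) * (1 - ‖w‖ ^ 2) := by
  have h := pick_identity (-z) w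
  simpa [sub_neg_eq_add] using h

/-- Möbius transformations preserve the closed disc. -/
theorem moeb_le {z w : ℂ} (hz : ‖z‖ < 1) (hw : ‖w‖ ≤ 1) : ‖(w - z) / (1 - conj z * w)‖ ≤ 1 := by
  have h1 := one_sub_ne hz hw
  have h2 : 0 < ‖1 - conj z * w‖ := norm_pos_iff.mpr h1
  rw [norm_div, div_le_one h2]
  have h3 := pick_identity z w
  have h4 : 0 ≤ (1 - ‖z‖ ^ 2) * (1 - ‖w‖ ^ 2) := by
    apply mul_nonneg <;> nlinarith [norm_nonneg z, norm_nonneg w]
  nlinarith [norm_nonneg (w - z)]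

/-- Schwarz lemma with target the closed disc. -/
theorem schwarz {g : ℂ → ℂ} (hg : DifferentiableOn ℂ g (ball 0 1))
    (hg1 : ∀ z ∈ ball (0:ℂ) 1, ‖g z‖ ≤ 1) (hg0 : g 0 = 0) {z : ℂ} (hz : ‖z‖ < 1) :
    ‖g z‖ ≤ ‖z‖ := by
  have hzb : z ∈ ball (0:ℂ) 1 := by simpa using hz
  have hmaps : MapsTo g (ball 0 1) (closedBall (g 0) 1) := by
    intro x hx
    rw [hg0, mem_closedBall_zero_iff]
    exact hg1 x hx
  have h := norm_dslope_le_div_of_mapsTo_ball hg hmaps hzb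
  rw [div_one] at h
  have h2 := sub_smul_dslope g 0 z
  rw [hg0, sub_zero, sub_zero, smul_eq_mul] at h2
  rw [← h2, norm_mul]
  exact mul_le_of_le_one_right (norm_nonneg _) h

/-- Schwarz-Pick inequality based at the origin. -/
theorem schwarz_pick_zero {g : ℂ → ℂ} (hg : DifferentiableOn ℂ g (ball 0 1))
    (hg1 : ∀ z ∈ ball (0:ℂ) 1, ‖g z‖ ≤ 1) {z : ℂ} (hz : ‖z‖ < 1) :
    ‖g z - g 0‖ ≤ ‖z‖ * ‖1 - conj (g 0) * g z‖ := by
  have h0b : (0:ℂ) ∈ ball (0:ℂ) 1 := by simp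
  have hzb : z ∈ ball (0:ℂ) 1 := by simpa using hz
  rcases lt_or_eq_of_le (hg1 0 h0b) with hlt | heq
  · set H : ℂ → ℂ := fun x => (g x - g 0) / (1 - conj (g 0) * g x) with hH
    have hHd : DifferentiableOn ℂ H (ball 0 1) := by
      intro x hx
      have h1 := hg x hx
      exact (h1.sub_const _).div ((h1.const_mul _).const_sub 1) (one_sub_ne hlt (hg1 x hx))
    have h1 := schwarz hHd (fun x hx => moeb_le hlt (hg1 x hx)) (by simp [hH]) hz
    simp only [hH] at h1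
    have h2 : 0 < ‖1 - conj (g 0) * g z‖ := norm_pos_iff.mpr (one_sub_ne hlt (hg1 z hzb))
    rwa [norm_div, div_le_iff₀ h2] at h1
  · have hmax : IsMaxOn (norm ∘ g) (ball 0 1) 0 := by
      intro x hx
      simp only [Function.comp_apply, mem_ofPred_eq]
      rw [heq]; exact hg1 x hx
    have hconst := Complex.eqOn_of_isPreconnected_of_isMaxOn_norm
      (convex_ball (0:ℂ) 1).isPreconnected isOpen_ball hg h0b hmax
    have h3 : g z = g 0 := hconst hzb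
    rw [h3, sub_self, norm_zero]
    positivity

theorem hasDerivAt_of {g : ℂ → ℂ} {r : ℝ} (hg : DifferentiableOn ℂ g (ball 0 r)) {z : ℂ}
    (hz : z ∈ ball (0:ℂ) r) : HasDerivAt g (deriv g z) z :=
  (hg.differentiableAt (isOpen_ball.mem_nhds hz)).hasDerivAt

end Pool.Agent.HU85
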