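import Pool.Agent.HU85.Renorm
import Mathlib

/-!
The bound of the harmonic pre-Schwarzian derivative of a univalent harmonic map.
-/

set_option autoImplicit false

open Complex Metric Set Filter Topology
open scoped ComplexConjugate

namespace Pool.Agent.HU85

theorem HarmU.PP_cont {h g : ℂ → ℂ} (H : HarmU h g) : ContinuousOn (PP h g) (ball 0 1) := by
  intro z hz
  have hz1 : ‖z‖ < 1 := by simpa using hz
  have h1 : ContinuousAt (deriv h) z := (H.h2d hz1).continuousAt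
  have h2 : ContinuousAt (deriv (deriv h)) z :=
    (hasDerivAt_of ((H.hd.deriv isOpen_ball).deriv isOpen_ball) hz).continuousAt
  have h3 : ContinuousAt (deriv (deriv g)) z :=
    (hasDerivAt_of ((H.gd.deriv isOpen_ball).deriv isOpen_ball) hz).continuousAt
  have h4 : ContinuousAt (om h g) z := (H.om1d hz1).continuousAt
  have h5 : ContinuousAt (fun z => conj (om h g z)) z :=
    Complex.continuous_conj.continuousAt.comp h4
  have h6 : deriv h z * (1 - om h g z * conj (om h g z)) ≠ 0 :=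
    mul_ne_zero (H.h1ne hz1) (one_sub_mul_conj_ne (H.om_lt hz1))
  exact ((h2.sub (h5.mul h3)).div (h1.mul (continuousAt_const.sub (h4.mul h5))) h6).continuousWithinAt

theorem HarmU.Ph_lt {h g : ℂ → ℂ} (H : HarmU h g) {r : ℝ} (hr0 : 0 < r) (hr1 : r < 1) {z : ℂ}
    (hz : ‖z‖ ≤ 1) : ‖Ph h g r z‖ < 19 := by
  have hcont : ContinuousOn (fun z => ‖Ph h g r z‖) (closedBall 0 1) := by
    have h1 : MapsTo (fun z : ℂ => (r:ℂ) * z) (closedBall 0 1) (ball 0 1) := by
      intro x hx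
      rw [mem_closedBall_zero_iff] at hx
      rw [mem_ball_zero_iff, norm_mul, Complex.norm_real, Real.norm_of_nonneg hr0.le]
      nlinarith [norm_nonneg x]
    have h2 : ContinuousOn (fun z : ℂ => PP h g (r * z)) (closedBall 0 1) :=
      H.PP_cont.comp (by fun_prop) h1
    unfold Ph
    fun_prop
  obtain ⟨a, ha, hmax⟩ := (isCompact_closedBall (0:ℂ) 1).exists_isMaxOn
    ⟨0, by simp⟩ hcont
  rw [mem_closedBall_zero_iff] at ha
  have hza : ‖Ph h g r z‖ ≤ ‖Ph h g r a‖ := hmax (by simpa using hz)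
  refine lt_of_le_of_lt hza ?_
  by_contra hcon
  push Not at hcon
  have ha1 : ‖a‖ < 1 := by
    rcases lt_or_eq_of_le ha with h1 | h1
    · exact h1
    · exfalso
      have h2 : ‖Ph h g r a‖ = 2 := by
        unfold Ph
        rw [mul_conj_sq, h1]
        simp [h1]
      rw [h2] at hcon
      norm_num at hcon
  have hpos : 0 < ‖Ph h g r a‖ := by linarith
  refine renorm H hr0 hr1 hcon (a := a) (ξ := conj (Ph h g r a) / ‖Ph h g r a‖) ha1 ?_ ?_ ?_
  · rw [norm_div, RCLike.norm_conj, Complex.norm_real, Real.norm_of_nonneg hpos.le,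
      div_self hpos.ne']
  · intro x hx
    exact hmax (by simpa using hx.le)
  · have h1 : ((‖Ph h g r a‖:ℝ):ℂ) ≠ 0 := by exact_mod_cast hpos.ne'
    rw [div_mul_eq_mul_div, mul_comm, mul_conj_sq]
    push_cast
    field_simp

/-- The bound of the harmonic pre-Schwarzian derivative. -/
theorem HarmU.PP_le {h g : ℂ → ℂ} (H : HarmU h g) {z : ℂ} (hz : ‖z‖ < 1) :
    ‖(1 - z * conj z) * PP h g z - 2 * conj z‖ ≤ 19 := by
  have hzb : z ∈ ball (0:ℂ) 1 := by simpa using hz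
  have h1 : ContinuousAt (PP h g) z := H.PP_cont.continuousAt (isOpen_ball.mem_nhds hzb)
  have h2 : Tendsto (fun r : ℝ => ‖Ph h g r z‖) (𝓝[<] 1)
      (𝓝 ‖(1 - z * conj z) * ((1:ℝ) * PP h g ((1:ℝ) * z)) - 2 * conj z‖) := by
    have h3 : ContinuousAt (fun r : ℝ => ‖Ph h g r z‖) 1 := by
      have h4 : ContinuousAt (fun r : ℝ => PP h g ((r:ℂ) * z)) 1 := by
        have h5 : ContinuousAt (fun r : ℝ => (r:ℂ) * z) 1 := by fun_prop
        have h6 : ContinuousAt (PP h g) (((1:ℝ):ℂ) * z) := by simpa using h1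
        exact ContinuousAt.comp (f := fun r : ℝ => (r:ℂ) * z) (x := (1:ℝ)) h6 h5
      unfold Ph
      fun_prop
    exact h3.tendsto.mono_left nhdsWithin_le_nhds
  have h7 : ∀ᶠ r : ℝ in 𝓝[<] 1, ‖Ph h g r z‖ ≤ 19 := by
    have : ∀ᶠ r : ℝ in 𝓝[<] 1, r ∈ Ioo (0:ℝ) 1 := Ioo_mem_nhdsLT (by norm_num)
    filter_upwards [this] with r hr
    exact (H.Ph_lt hr.1 hr.2 hz.le).le
  have h8 := le_of_tendsto h2 h7
  simpa using h8

/-- **Second coefficients.** -/
theorem HarmU.second {h g : ℂ → ℂ} (H : HarmU h g) (h1 : deriv h 0 = 1) :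
    ‖deriv (deriv h) 0‖ ≤ 19 + ‖deriv g 0‖ ∧ ‖deriv (deriv g) 0‖ ≤ 1 + 19 * ‖deriv g 0‖ := by
  have hz0 : ‖(0:ℂ)‖ < 1 := by simp
  have h2 := H.PP_le hz0
  have hb : om h g 0 = deriv g 0 := by unfold om; rw [h1, div_one]
  have hbn : ‖deriv g 0‖ < 1 := by rw [← hb]; exact H.om_lt hz0
  have h3 := H.g2eq hz0
  rw [h1, hb, mul_one] at h3
  have h4 := schwarz_pick H.omd (fun x hx => (H.om_lt (by simpa using hx)).le) hz0
  rw [hb] at h4
  have h5 : ‖deriv (om h g) 0‖ ≤ 1 - ‖deriv g 0‖ ^ 2 := by simpa using h4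
  set b := deriv g 0 with hbdef
  set w := deriv (om h g) 0 with hw
  set A := deriv (deriv h) 0 with hA
  have hbne : 1 - b * conj b ≠ 0 := one_sub_mul_conj_ne hbn
  have h6 : PP h g 0 = A - conj b * w / (1 - b * conj b) := by
    unfold PP
    rw [h1, hb, h3, ← hA, one_mul, eq_sub_iff_add_eq, ← add_div, div_eq_iff hbne]
    ring
  have hsq : ‖1 - b * conj b‖ = 1 - ‖b‖ ^ 2 := by
    rw [mul_conj_sq]
    have : (1:ℂ) - ((‖b‖ ^ 2 : ℝ) : ℂ) = ((1 - ‖b‖ ^ 2 : ℝ) : ℂ) := by push_cast; ring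
    rw [this, Complex.norm_real, Real.norm_of_nonneg]
    nlinarith [norm_nonneg b]
  have hpos : 0 < 1 - ‖b‖ ^ 2 := by nlinarith [norm_nonneg b]
  have h7 : ‖conj b * w / (1 - b * conj b)‖ ≤ ‖b‖ := by
    rw [norm_div, norm_mul, RCLike.norm_conj, hsq, div_le_iff₀ hpos]
    exact mul_le_mul_of_nonneg_left h5 (norm_nonneg b)
  have h8 : ‖A‖ ≤ 19 + ‖b‖ := by
    have h9 : A = PP h g 0 + conj b * w / (1 - b * conj b) := by rw [h6]; ring
    have h10 : ‖PP h g 0‖ ≤ 19 := by simpa using h2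
    rw [h9]
    exact (norm_add_le _ _).trans (add_le_add h10 h7)
  refine ⟨h8, ?_⟩
  rw [h3]
  refine (norm_add_le _ _).trans ?_
  rw [norm_mul]
  nlinarith [norm_nonneg b, mul_le_mul_of_nonneg_left h8 (norm_nonneg b)]

end Pool.Agent.HU85
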