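import Pool.Agent.HU85.Norm
import Pool.Agent.HU85.Pick
import Mathlib

/-!
Renormalisation of a harmonic univalent map at an extremal point of the harmonic pre-Schwarzian.
-/

set_option autoImplicit false

open Complex Metric Set Filter Topology
open scoped ComplexConjugate

namespace Pool.Agent.HU85

/-- sense preserving univalent harmonic maps of the unit disc -/
structure HarmU (h g : ℂ → ℂ) : Prop where
  hd : DifferentiableOn ℂ h (ball 0 1)
  gd : DifferentiableOn ℂ g (ball 0 1)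
  lt : ∀ z ∈ ball (0:ℂ) 1, ‖deriv g z‖ < ‖deriv h z‖
  inj : InjOn (fun z => h z + conj (g z)) (ball 0 1)

/-- the dilatation -/
noncomputable def om (h g : ℂ → ℂ) (z : ℂ) : ℂ := deriv g z / deriv h z

/-- the harmonic pre-Schwarzian derivative -/
noncomputable def PP (h g : ℂ → ℂ) (z : ℂ) : ℂ :=
  (deriv (deriv h) z - conj (om h g z) * deriv (deriv g) z) /
    (deriv h z * (1 - om h g z * conj (om h g z)))

/-- the quantity to be bounded -/
noncomputable def Ph (h g : ℂ → ℂ) (r : ℝ) (z : ℂ) : ℂ :=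
  (1 - z * conj z) * (r * PP h g (r * z)) - 2 * conj z

namespace HarmU

variable {h g : ℂ → ℂ}

theorem h1ne (H : HarmU h g) {z : ℂ} (hz : ‖z‖ < 1) : deriv h z ≠ 0 := by
  have h1 := H.lt z (by simpa using hz)
  have h2 : 0 < ‖deriv h z‖ := lt_of_le_of_lt (norm_nonneg _) h1
  exact norm_pos_iff.mp h2

theorem om_lt (H : HarmU h g) {z : ℂ} (hz : ‖z‖ < 1) : ‖om h g z‖ < 1 := by
  have h1 := H.lt z (by simpa using hz)
  have h2 : 0 < ‖deriv h z‖ := lt_of_le_of_lt (norm_nonneg _) h1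
  unfold om
  rw [norm_div, div_lt_one h2]
  exact h1

theorem h1d (H : HarmU h g) {z : ℂ} (hz : ‖z‖ < 1) : HasDerivAt h (deriv h z) z :=
  hasDerivAt_of H.hd (by simpa using hz)

theorem g1d (H : HarmU h g) {z : ℂ} (hz : ‖z‖ < 1) : HasDerivAt g (deriv g z) z :=
  hasDerivAt_of H.gd (by simpa using hz)

theorem h2d (H : HarmU h g) {z : ℂ} (hz : ‖z‖ < 1) :
    HasDerivAt (deriv h) (deriv (deriv h) z) z :=
  hasDerivAt_of (H.hd.deriv isOpen_ball) (by simpa using hz)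

theorem g2d (H : HarmU h g) {z : ℂ} (hz : ‖z‖ < 1) :
    HasDerivAt (deriv g) (deriv (deriv g) z) z :=
  hasDerivAt_of (H.gd.deriv isOpen_ball) (by simpa using hz)

theorem omd (H : HarmU h g) : DifferentiableOn ℂ (om h g) (ball 0 1) := by
  intro z hz
  have hz1 : ‖z‖ < 1 := by simpa using hz
  exact ((H.g2d hz1).differentiableAt.div (H.h2d hz1).differentiableAt
    (H.h1ne hz1)).differentiableWithinAt

theorem om1d (H : HarmU h g) {z : ℂ} (hz : ‖z‖ < 1) :
    HasDerivAt (om h g) (deriv (om h g) z) z :=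
  hasDerivAt_of H.omd (by simpa using hz)

theorem g1eq (H : HarmU h g) {z : ℂ} (hz : ‖z‖ < 1) : deriv g z = om h g z * deriv h z := by
  unfold om
  field_simp [H.h1ne hz]

theorem g2eq (H : HarmU h g) {z : ℂ} (hz : ‖z‖ < 1) :
    deriv (deriv g) z = deriv (om h g) z * deriv h z + om h g z * deriv (deriv h) z := by
  have h1 : HasDerivAt (fun z => om h g z * deriv h z)
      (deriv (om h g) z * deriv h z + om h g z * deriv (deriv h) z) z :=
    (H.om1d hz).mul (H.h2d hz)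
  have h2 : (fun z => om h g z * deriv h z) =ᶠ[𝓝 z] deriv g := by
    have : ball (0:ℂ) 1 ∈ 𝓝 z := isOpen_ball.mem_nhds (by simpa using hz)
    filter_upwards [this] with x hx
    exact (H.g1eq (by simpa using hx)).symm
  exact (h1.congr_of_eventuallyEq h2.symm).deriv

end HarmU

/-- the algebraic identity between `Q'/Q` and `PP` -/
theorem alg_PP {h1 h2 g1 g2 ω ω' ωc bc : ℂ} (hh : h1 ≠ 0) (h3 : 1 - ω * ωc ≠ 0)
    (h4 : 1 - bc * ω ≠ 0) (hg1 : g1 = ω * h1) (hg2 : g2 = ω' * h1 + ω * h2) :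
    (h2 - bc * g2) / (h1 - bc * g1) = (h2 - ωc * g2) / (h1 * (1 - ω * ωc)) +
      ω' * (ωc - bc) / ((1 - ω * ωc) * (1 - bc * ω)) := by
  have h5 : h1 - bc * g1 = h1 * (1 - bc * ω) := by rw [hg1]; ring
  rw [h5, hg2]
  field_simp
  ring

/-- norms of self-conjugate products -/
theorem mul_conj_sq (z : ℂ) : z * conj z = ((‖z‖ ^ 2 : ℝ) : ℂ) := by
  rw [Complex.mul_conj, Complex.normSq_eq_norm_sq]

theorem one_sub_mul_conj_ne {z : ℂ} (hz : ‖z‖ < 1) : 1 - z * conj z ≠ 0 := by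
  rw [mul_conj_sq]
  have : (1 - ‖z‖ ^ 2 : ℝ) ≠ 0 := by nlinarith [norm_nonneg z]
  intro h
  apply this
  exact_mod_cast h

/-- **Renormalisation.** -/
theorem renorm {h g : ℂ → ℂ} (H : HarmU h g) {r : ℝ} (hr0 : 0 < r) (hr1 : r < 1) {M : ℝ}
    (hM : 19 ≤ M) {a ξ : ℂ} (ha : ‖a‖ < 1) (hξ : ‖ξ‖ = 1)
    (hbd : ∀ z : ℂ, ‖z‖ < 1 → ‖Ph h g r z‖ ≤ M) (hext : ξ * Ph h g r a = M) : False := by
  set c : ℂ := conj a * ξ with hc
  have hcn : ‖c‖ < 1 := by rw [hc, norm_mul, hξ, mul_one, RCLike.norm_conj]; exact ha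
  have hξξ : ξ * conj ξ = 1 := by rw [mul_conj_sq, hξ]; simp
  have hξ0 : ξ ≠ 0 := by intro h0; rw [h0, norm_zero] at hξ; exact zero_ne_one hξ
  set D : ℂ → ℂ := fun z => 1 + c * z with hD
  have hDne : ∀ z : ℂ, ‖z‖ < 1 → D z ≠ 0 := by
    intro z hz h0
    have h1 : ‖c * z‖ < 1 := by
      rw [norm_mul]; nlinarith [norm_nonneg c, norm_nonneg z]
    have h2 : c * z = -1 := by linear_combination h0
    rw [h2] at h1
    simp at h1
  set T : ℂ → ℂ := fun z => (ξ * z + a) / D z with hT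
  have hA : 1 - a * conj a ≠ 0 := one_sub_mul_conj_ne ha
  -- modulus identity
  have hmod : ∀ z : ℂ, ‖z‖ < 1 →
      (1 - T z * conj (T z)) * (D z * conj (D z)) = (1 - a * conj a) * (1 - z * conj z) := by
    intro z hz
    have h1 := hDne z hz
    have h2 : conj (D z) ≠ 0 := by rwa [Ne, map_eq_zero]
    simp only [hT, map_div₀]
    field_simp
    simp only [hD, hc, map_add, map_mul, map_one, Complex.conj_conj]
    linear_combination (a * conj a * z * conj z - z * conj z) * hξξ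
  have hTlt : ∀ z : ℂ, ‖z‖ < 1 → ‖T z‖ < 1 := by
    intro z hz
    have h1 := hmod z hz
    rw [mul_conj_sq, mul_conj_sq, mul_conj_sq, mul_conj_sq] at h1
    have h2 : (1 - ‖T z‖ ^ 2) * ‖D z‖ ^ 2 = (1 - ‖a‖ ^ 2) * (1 - ‖z‖ ^ 2) := by exact_mod_cast h1
    have h3 : 0 < (1 - ‖a‖ ^ 2) * (1 - ‖z‖ ^ 2) := by
      apply mul_pos <;> nlinarith [norm_nonneg a, norm_nonneg z]
    rw [← h2] at h3
    have h4 : 0 < ‖D z‖ ^ 2 := by
      have := norm_pos_iff.mpr (hDne z hz); positivity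
    have h5 := (mul_pos_iff_of_pos_right h4).mp h3
    nlinarith [norm_nonneg (T z)]
  have hDd : ∀ z : ℂ, HasDerivAt D c z := by
    intro z
    exact (((hasDerivAt_id z).const_mul c).const_add 1).congr_deriv (by simp)
  have hTd : ∀ z : ℂ, ‖z‖ < 1 → HasDerivAt T (ξ * (1 - a * conj a) / D z ^ 2) z := by
    intro z hz
    have h1 : HasDerivAt (fun z : ℂ => ξ * z + a) ξ z := by
      simpa using ((hasDerivAt_id z).const_mul ξ).add_const a
    refine (h1.div (hDd z) (hDne z hz)).congr_deriv ?_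
    congr 1
    simp only [hD, hc]; ring
  set Ψ : ℂ → ℂ := fun z => r * T z with hΨ
  have hΨlt : ∀ z : ℂ, ‖z‖ < 1 → ‖Ψ z‖ < 1 := by
    intro z hz
    have h1 := hTlt z hz
    simp only [hΨ]
    rw [norm_mul, Complex.norm_real, Real.norm_of_nonneg hr0.le]
    nlinarith [norm_nonneg (T z)]
  set Ψ' : ℂ → ℂ := fun z => r * (ξ * (1 - a * conj a) / D z ^ 2) with hΨ'
  have hΨd : ∀ z : ℂ, ‖z‖ < 1 → HasDerivAt Ψ (Ψ' z) z := by
    intro z hz
    exact (hTd z hz).const_mul (r:ℂ)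
  have hrc : (r:ℂ) ≠ 0 := by exact_mod_cast hr0.ne'
  have hΨ'ne : ∀ z : ℂ, ‖z‖ < 1 → Ψ' z ≠ 0 := by
    intro z hz
    have := hDne z hz
    simp only [hΨ']
    exact mul_ne_zero hrc (div_ne_zero (mul_ne_zero hξ0 hA) (pow_ne_zero 2 this))
  have hΨ'd : ∀ z : ℂ, ‖z‖ < 1 → HasDerivAt Ψ' (Ψ' z * (-2 * c / D z)) z := by
    intro z hz
    have h1 := hDne z hz
    have h2 := (((hDd z).pow 2).inv (pow_ne_zero 2 h1)).const_mul (ξ * (1 - a * conj a))
    have h3 := h2.const_mul (r:ℂ)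
    have h4 : HasDerivAt Ψ' _ z := h3
    refine h4.congr_deriv ?_
    simp only [hΨ', Pi.pow_apply]
    field_simp
    norm_num
    ring
  have hz0 : ‖(0:ℂ)‖ < 1 := by simp
  have hD0 : D 0 = 1 := by simp [hD]
  have hT0 : T 0 = a := by simp [hT, hD0]
  have hΨ0 : Ψ 0 = r * a := by simp only [hΨ, hT0]
  set ω := om h g with hω
  set b : ℂ := ω (r * a) with hb
  have hral : ‖(r:ℂ) * a‖ < 1 := by rw [← hΨ0]; exact hΨlt 0 hz0
  have hbn : ‖b‖ < 1 := H.om_lt hral
  set φ : ℂ → ℂ := fun z => ω (Ψ z) with hφ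
  have hφ0 : φ 0 = b := by simp only [hφ, hΨ0, hb]
  have hφ1 : ∀ z : ℂ, ‖z‖ < 1 → ‖φ z‖ < 1 := fun z hz => H.om_lt (hΨlt z hz)
  have hφd : ∀ z : ℂ, ‖z‖ < 1 → HasDerivAt φ (deriv ω (Ψ z) * Ψ' z) z := by
    intro z hz
    exact (H.om1d (hΨlt z hz)).comp z (hΨd z hz)
  have hφD : DifferentiableOn ℂ φ (ball 0 1) := fun z hz =>
    (hφd z (by simpa using hz)).differentiableAt.differentiableWithinAt
  have hbφ : ∀ z : ℂ, ‖z‖ < 1 → 1 - conj b * φ z ≠ 0 := fun z hz => one_sub_ne hbn (hφ1 z hz).le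
  -- the normalising constant
  set ν : ℂ := (deriv h (r * a) - conj b * deriv g (r * a)) * Ψ' 0 with hν
  have hQ : ∀ z : ℂ, ‖z‖ < 1 → deriv h (Ψ z) - conj b * deriv g (Ψ z) =
      deriv h (Ψ z) * (1 - conj b * φ z) := by
    intro z hz
    rw [H.g1eq (hΨlt z hz)]
    ring
  have hQne : ∀ z : ℂ, ‖z‖ < 1 → deriv h (Ψ z) - conj b * deriv g (Ψ z) ≠ 0 := by
    intro z hz
    rw [hQ z hz]
    exact mul_ne_zero (H.h1ne (hΨlt z hz)) (hbφ z hz)
  have hν0 : ν ≠ 0 := by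
    have h1 := hQne 0 hz0
    rw [hΨ0] at h1
    exact mul_ne_zero h1 (hΨ'ne 0 hz0)
  have hνc : conj ν ≠ 0 := by rwa [Ne, map_eq_zero]
  set F1 : ℂ → ℂ := fun z => (deriv h (Ψ z) - conj b * deriv g (Ψ z)) * Ψ' z / ν with hF1
  have hF1ne : ∀ z ∈ ball (0:ℂ) 1, F1 z ≠ 0 := by
    intro z hz
    have hz1 : ‖z‖ < 1 := by simpa using hz
    exact div_ne_zero (mul_ne_zero (hQne z hz1) (hΨ'ne z hz1)) hν0
  have hF10 : F1 0 = 1 := by
    simp only [hF1, hΨ0]
    rw [← hν, div_self hν0]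
  have hF1d : ∀ z : ℂ, ‖z‖ < 1 → HasDerivAt F1
      (((deriv (deriv h) (Ψ z) * Ψ' z - conj b * (deriv (deriv g) (Ψ z) * Ψ' z)) * Ψ' z +
        (deriv h (Ψ z) - conj b * deriv g (Ψ z)) * (Ψ' z * (-2 * c / D z))) / ν) z := by
    intro z hz
    have h1 := (H.h2d (hΨlt z hz)).comp z (hΨd z hz)
    have h2 := (H.g2d (hΨlt z hz)).comp z (hΨd z hz)
    exact ((h1.sub (h2.const_mul (conj b))).mul (hΨ'd z hz)).div_const ν
  have hF1D : DifferentiableOn ℂ F1 (ball 0 1) := fun z hz =>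
    (hF1d z (by simpa using hz)).differentiableAt.differentiableWithinAt
  obtain ⟨L, hL0, hLd, hLe⟩ := exists_log hF1D hF1ne hF10
  set p : ℂ → ℂ := fun z => deriv F1 z / F1 z with hp
  have hpf : ∀ z : ℂ, ‖z‖ < 1 → p z = (deriv (deriv h) (Ψ z) - conj b * deriv (deriv g) (Ψ z)) /
      (deriv h (Ψ z) - conj b * deriv g (Ψ z)) * Ψ' z + -2 * c / D z := by
    intro z hz
    simp only [hp]
    rw [(hF1d z hz).deriv]
    simp only [hF1]
    have h1 := hQne z hz
    have h2 := hΨ'ne z hz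
    have h3 := hDne z hz
    generalize deriv h (Ψ z) - conj b * deriv g (Ψ z) = Q at h1 ⊢
    generalize Ψ' z = P at h2 ⊢
    field_simp
  -- the key identity
  have hkey : ∀ z : ℂ, ‖z‖ < 1 → (1 - z * conj z) * p z - 2 * conj z =
      ξ * conj (D z) / D z * Ph h g r (T z) + (1 - z * conj z) *
        (deriv ω (Ψ z) * Ψ' z) * ((conj (φ z) - conj b) /
          ((1 - φ z * conj (φ z)) * (1 - conj b * φ z))) := by
    intro z hz
    have h1 := hDne z hz
    have h2 : conj (D z) ≠ 0 := by rwa [Ne, map_eq_zero]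
    have h3 := hΨlt z hz
    have h4 : 1 - φ z * conj (φ z) ≠ 0 := one_sub_mul_conj_ne (hφ1 z hz)
    rw [hpf z hz, alg_PP (ω := φ z) (ωc := conj (φ z)) (ω' := deriv ω (Ψ z))
      (H.h1ne h3) h4 (hbφ z hz) (H.g1eq h3) (H.g2eq h3)]
    have hPP : (deriv (deriv h) (Ψ z) - conj (φ z) * deriv (deriv g) (Ψ z)) /
        (deriv h (Ψ z) * (1 - φ z * conj (φ z))) = PP h g (r * T z) := rfl
    rw [hPP]
    unfold Ph
    have h5 : (1 - z * conj z) * Ψ' z = ξ * conj (D z) / D z * ((1 - T z * conj (T z)) * r) := by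
      have h6 := hmod z hz
      have h7 : 1 - T z * conj (T z) = (1 - a * conj a) * (1 - z * conj z) /
          (D z * conj (D z)) := by
        rw [eq_div_iff (mul_ne_zero h1 h2)]; exact h6
      rw [h7]
      simp only [hΨ']
      field_simp
    have h8 : (1 - z * conj z) * (-2 * c / D z) - 2 * conj z =
        ξ * conj (D z) / D z * (-2 * conj (T z)) := by
      simp only [hT, map_div₀]
      field_simp
      simp only [hD, hc, map_add, map_mul]
      linear_combination (conj z) * hξξ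
    linear_combination (PP h g (r * T z)) * h5 + h8
  -- norms
  have hUn : ∀ z : ℂ, ‖z‖ < 1 → ‖ξ * conj (D z) / D z‖ = 1 := by
    intro z hz
    rw [norm_div, norm_mul, hξ, RCLike.norm_conj, one_mul]
    exact div_self (norm_pos_iff.mpr (hDne z hz)).ne'
  have hLog : LogHyp M L p := by
    refine ⟨hLd, hL0, ?_, ?_⟩
    · have h1 := hkey 0 hz0
      rw [hφ0, hT0, hD0] at h1
      simp only [map_zero, mul_zero, sub_zero, map_one, sub_self, zero_div, add_zero,
        mul_one, div_one, one_mul] at h1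
      rw [h1]
      exact hext
    · intro z hz
      have h1 := hkey z hz
      have hsq : (1 - (‖z‖:ℂ) ^ 2) = 1 - z * conj z := by
        rw [mul_conj_sq]; push_cast; ring
      rw [hsq, h1]
      refine (norm_add_le _ _).trans ?_
      apply add_le_add
      · rw [norm_mul, hUn z hz, one_mul]
        exact hbd _ (hTlt z hz)
      · have h2 := schwarz_pick hφD (fun x hx => (hφ1 x (by simpa using hx)).le) hz
        rw [(hφd z hz).deriv] at h2
        have h3 := schwarz_pick_zero hφD (fun x hx => (hφ1 x (by simpa using hx)).le) hz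
        rw [hφ0] at h3
        have h4 : ‖(1 - φ z * conj (φ z))‖ = 1 - ‖φ z‖ ^ 2 := by
          rw [mul_conj_sq]
          have : (1:ℂ) - ((‖φ z‖ ^ 2 : ℝ) : ℂ) = ((1 - ‖φ z‖ ^ 2 : ℝ) : ℂ) := by push_cast; ring
          rw [this, Complex.norm_real, Real.norm_of_nonneg]
          nlinarith [norm_nonneg (φ z), hφ1 z hz]
        have h5 : ‖(1 - z * conj z)‖ = 1 - ‖z‖ ^ 2 := by
          rw [mul_conj_sq]
          have : (1:ℂ) - ((‖z‖ ^ 2 : ℝ) : ℂ) = ((1 - ‖z‖ ^ 2 : ℝ) : ℂ) := by push_cast; ring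
          rw [this, Complex.norm_real, Real.norm_of_nonneg]
          nlinarith [norm_nonneg z]
        have h6 : ‖conj (φ z) - conj b‖ = ‖φ z - b‖ := by
          rw [← map_sub, RCLike.norm_conj]
        rw [norm_mul, norm_mul (1 - z * conj z), h5, norm_div, norm_mul (1 - φ z * conj (φ z)), h4, h6]
        have h7 : 0 < 1 - ‖φ z‖ ^ 2 := by nlinarith [norm_nonneg (φ z), hφ1 z hz]
        have h8 : 0 < ‖1 - conj b * φ z‖ := norm_pos_iff.mpr (hbφ z hz)
        rw [mul_div_assoc', div_le_iff₀ (by positivity)]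
        calc (1 - ‖z‖ ^ 2) * ‖deriv ω (Ψ z) * Ψ' z‖ * ‖φ z - b‖ ≤
              (1 - ‖φ z‖ ^ 2) * (‖z‖ * ‖1 - conj b * φ z‖) :=
              mul_le_mul h2 h3 (norm_nonneg _) h7.le
          _ = _ := by ring
  -- the dilatation
  set Ω : ℂ → ℂ := fun z => ν / conj ν * ((φ z - b) / (1 - conj b * φ z)) with hΩ
  have hΩD : DifferentiableOn ℂ Ω (ball 0 1) := by
    intro z hz
    have hz1 : ‖z‖ < 1 := by simpa using hz
    exact (((hφD z hz).sub_const b).div (((hφD z hz).const_mul (conj b)).const_sub 1)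
      (hbφ z hz1)).const_mul _
  have hνν : ‖ν / conj ν‖ = 1 := by
    rw [norm_div, RCLike.norm_conj]
    exact div_self (norm_pos_iff.mpr hν0).ne'
  have hΩ1 : ∀ z ∈ ball (0:ℂ) 1, ‖Ω z‖ ≤ 1 := by
    intro z hz
    have hz1 : ‖z‖ < 1 := by simpa using hz
    simp only [hΩ]
    rw [norm_mul, hνν, one_mul]
    exact moeb_le hbn (hφ1 z hz1).le
  have hΩ0 : Ω 0 = 0 := by simp [hΩ, hφ0]
  -- the map
  have hHd : ∀ z : ℂ, ‖z‖ < 1 → HasDerivAt (fun z => (h (Ψ z) - conj b * g (Ψ z)) / ν)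
      (exp (L z)) z := by
    intro z hz
    have h1 := (H.h1d (hΨlt z hz)).comp z (hΨd z hz)
    have h2 := (H.g1d (hΨlt z hz)).comp z (hΨd z hz)
    refine ((h1.sub (h2.const_mul (conj b))).div_const ν).congr_deriv ?_
    rw [hLe z hz]
    simp only [hF1]
    ring
  have hGd : ∀ z : ℂ, ‖z‖ < 1 → HasDerivAt (fun z => (g (Ψ z) - b * h (Ψ z)) / conj ν)
      (Ω z * exp (L z)) z := by
    intro z hz
    have h1 := (H.h1d (hΨlt z hz)).comp z (hΨd z hz)
    have h2 := (H.g1d (hΨlt z hz)).comp z (hΨd z hz)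
    refine ((h2.sub (h1.const_mul b)).div_const (conj ν)).congr_deriv ?_
    rw [hLe z hz]
    simp only [hF1, hΩ]
    rw [hQ z hz, H.g1eq (hΨlt z hz)]
    have h3 := hbφ z hz
    change (ω (Ψ z) * deriv h (Ψ z) * Ψ' z - b * (deriv h (Ψ z) * Ψ' z)) / conj ν = _
    have h4 : ω (Ψ z) = φ z := rfl
    rw [h4]
    generalize 1 - conj b * φ z = q at h3 ⊢
    field_simp
  obtain ⟨z₁, z₂, hz1, hz2, hne, heq⟩ := norm_contra hM hLog hΩD hΩ1 hΩ0 hHd hGd
  -- injectivity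
  set W : ℂ → ℂ := fun z => h (Ψ z) + conj (g (Ψ z)) with hW
  have hHG : ∀ z : ℂ, (h (Ψ z) - conj b * g (Ψ z)) / ν + conj ((g (Ψ z) - b * h (Ψ z)) / conj ν) =
      (W z - conj b * conj (W z)) / ν := by
    intro z
    simp only [hW, map_div₀, map_sub, map_mul, map_add, Complex.conj_conj]
    ring
  rw [hHG, hHG] at heq
  have h1 : W z₁ - conj b * conj (W z₁) = W z₂ - conj b * conj (W z₂) := by
    have := congrArg (fun x => x * ν) heq
    simpa [div_mul_cancel₀ _ hν0] using this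
  have h2 : W z₁ - W z₂ = conj b * conj (W z₁ - W z₂) := by
    rw [map_sub]; linear_combination h1
  have h3 : ‖W z₁ - W z₂‖ = ‖b‖ * ‖W z₁ - W z₂‖ := by
    have := congrArg norm h2
    rwa [norm_mul, RCLike.norm_conj, RCLike.norm_conj] at this
  have h4 : ‖W z₁ - W z₂‖ = 0 := by nlinarith [norm_nonneg (W z₁ - W z₂)]
  have h5 : W z₁ = W z₂ := sub_eq_zero.mp (norm_eq_zero.mp h4)
  have h6 : Ψ z₁ = Ψ z₂ :=
    H.inj (by simpa using hΨlt z₁ hz1) (by simpa using hΨlt z₂ hz2) h5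
  have h7 : T z₁ = T z₂ := mul_left_cancel₀ hrc h6
  have h8 : (ξ * z₁ + a) * D z₂ = (ξ * z₂ + a) * D z₁ := by
    have h9 := h7
    simp only [hT] at h9
    rwa [div_eq_div_iff (hDne z₁ hz1) (hDne z₂ hz2)] at h9
  have h10 : (z₁ - z₂) * (ξ * (1 - a * conj a)) = 0 := by
    simp only [hD, hc] at h8
    linear_combination h8
  rcases mul_eq_zero.mp h10 with h11 | h11
  · exact hne (sub_eq_zero.mp h11)
  · exact mul_ne_zero hξ0 hA h11

end Pool.Agent.HU85
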