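import Pool.Agent.HU85.Tools
import Mathlib

/-!
The fixed point argument: a harmonic map whose analytic part is close to `(e^{19z}-1)/19` and whose
dilatation is close to `w z` is not injective near `± iπ/19`.
-/

set_option autoImplicit false

open Complex Metric Set
open scoped ComplexConjugate

namespace Pool.Agent.HU85

/-- the radius -/
noncomputable def rr : ℝ := 401 / 2000

/-- error function -/
noncomputable def EE (t : ℝ) : ℝ := 213 / 125 * t ^ 2 + 421 / 20 * t ^ 3 + 201 / 2 * t ^ 5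

/-- primitive of `EE` -/
noncomputable def BE (t : ℝ) : ℝ := 71 / 125 * t ^ 3 + 421 / 80 * t ^ 4 + 67 / 4 * t ^ 6

/-- primitive of `t * EE t` -/
noncomputable def BtE (t : ℝ) : ℝ := 213 / 500 * t ^ 4 + 421 / 100 * t ^ 5 + 201 / 14 * t ^ 7

theorem hasDerivAt_BE (t : ℝ) : HasDerivAt BE (EE t) t := by
  unfold BE EE
  have h3 := (hasDerivAt_pow 3 t).const_mul (71 / 125 : ℝ)
  have h4 := (hasDerivAt_pow 4 t).const_mul (421 / 80 : ℝ)
  have h6 := (hasDerivAt_pow 6 t).const_mul (67 / 4 : ℝ)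
  refine ((h3.add h4).add h6).congr_deriv ?_
  norm_num; ring

theorem hasDerivAt_BtE (t : ℝ) : HasDerivAt BtE (t * EE t) t := by
  unfold BtE EE
  have h4 := (hasDerivAt_pow 4 t).const_mul (213 / 500 : ℝ)
  have h5 := (hasDerivAt_pow 5 t).const_mul (421 / 100 : ℝ)
  have h7 := (hasDerivAt_pow 7 t).const_mul (201 / 14 : ℝ)
  refine ((h4.add h5).add h7).congr_deriv ?_
  norm_num; ring

/-- upper bound for `cosh (2/3)` -/
noncomputable def cc : ℝ := 6153 / 5000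

theorem cosh_two_thirds : Real.cosh (2 / 3) ≤ cc := by
  rw [Real.cosh_eq]
  have h1 : Real.exp (2 / 3) ≤ 194774 / 100000 := by
    have := Real.exp_bound' (x := 2 / 3) (by norm_num) (by norm_num) (n := 9) (by norm_num)
    refine this.trans ?_
    norm_num [Finset.sum_range_succ, Nat.factorial]
  have h2 : (194773 / 100000 : ℝ) ≤ Real.exp (2 / 3) := by
    have := Real.sum_le_exp_of_nonneg (x := 2 / 3) (by norm_num) 9
    refine le_trans ?_ this
    norm_num [Finset.sum_range_succ, Nat.factorial]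
  have h3 : Real.exp (-(2 / 3)) ≤ 100000 / 194773 := by
    rw [Real.exp_neg]
    rw [inv_le_comm₀ (Real.exp_pos _) (by norm_num)]
    simpa using h2
  unfold cc
  have : (100000 / 194773 : ℝ) ≤ 51342 / 100000 := by norm_num
  linarith

theorem exp_add_le {x : ℝ} (hx : |x| ≤ 2 / 3) : Real.exp x + Real.exp (-x) ≤ 2 * cc := by
  have h1 : Real.cosh x ≤ Real.cosh (2 / 3) := by
    rw [Real.cosh_le_cosh, abs_of_pos (by norm_num : (0:ℝ) < 2 / 3)]
    exact hx
  have h2 := h1.trans cosh_two_thirds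
  rw [Real.cosh_eq] at h2
  linarith

theorem norm_cosh_le {v : ℂ} (hv : ‖v‖ ≤ 2 / 3) : ‖Complex.cosh v‖ ≤ cc := by
  have h1 : ‖Complex.cosh v‖ ≤ (Real.exp v.re + Real.exp (-v.re)) / 2 := by
    unfold Complex.cosh
    rw [norm_div]
    have h2 : ‖exp v + exp (-v)‖ ≤ Real.exp v.re + Real.exp (-v.re) := by
      refine (norm_add_le _ _).trans ?_
      rw [Complex.norm_exp, Complex.norm_exp, neg_re]
    have h3 : ‖(2:ℂ)‖ = 2 := by simp
    rw [h3]
    linarith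
  have h4 : |v.re| ≤ 2 / 3 := (Complex.abs_re_le_norm v).trans hv
  have h5 := exp_add_le h4
  linarith

theorem norm_sinh_le {v : ℂ} (hv : ‖v‖ ≤ 2 / 3) : ‖Complex.sinh v‖ ≤ cc * ‖v‖ := by
  apply ray_le (B := fun t => cc * t) (B' := fun _ => cc) (φ' := Complex.cosh)
  · intro z _; exact Complex.hasDerivAt_sinh z
  · intro t; simpa using (hasDerivAt_id t).const_mul cc
  · intro z hz; exact norm_cosh_le (hz.trans hv)
  · exact Complex.sinh_zero
  · simp

theorem norm_cosh_sub_one_le {v : ℂ} (hv : ‖v‖ ≤ 2 / 3) :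
    ‖Complex.cosh v - 1‖ ≤ cc / 2 * ‖v‖ ^ 2 := by
  apply ray_le (φ := fun v => Complex.cosh v - 1) (B := fun t => cc / 2 * t ^ 2)
    (B' := fun t => cc * t) (φ' := Complex.sinh)
  · intro z _; exact (Complex.hasDerivAt_cosh z).sub_const 1
  · intro t
    refine ((hasDerivAt_pow 2 t).const_mul (cc / 2)).congr_deriv ?_
    norm_num; ring
  · intro z hz; exact norm_sinh_le (hz.trans hv)
  · simp
  · simp

theorem norm_sinh_sub_le {v : ℂ} (hv : ‖v‖ ≤ 2 / 3) :
    ‖Complex.sinh v - v‖ ≤ cc / 6 * ‖v‖ ^ 3 := by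
  apply ray_le (φ := fun v => Complex.sinh v - v) (B := fun t => cc / 6 * t ^ 3)
    (B' := fun t => cc / 2 * t ^ 2) (φ' := fun v => Complex.cosh v - 1)
  · intro z _; exact (Complex.hasDerivAt_sinh z).sub (hasDerivAt_id z)
  · intro t
    refine ((hasDerivAt_pow 3 t).const_mul (cc / 6)).congr_deriv ?_
    norm_num; ring
  · intro z hz; exact norm_cosh_sub_one_le (hz.trans hv)
  · simp
  · simp

theorem norm_mul_cosh_sub_le {v : ℂ} (hv : ‖v‖ ≤ 2 / 3) :
    ‖v * Complex.cosh v - Complex.sinh v‖ ≤ cc / 3 * ‖v‖ ^ 3 := by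
  apply ray_le (φ := fun v => v * Complex.cosh v - Complex.sinh v) (B := fun t => cc / 3 * t ^ 3)
    (B' := fun t => cc * t ^ 2) (φ' := fun v => v * Complex.sinh v)
  · intro z _
    refine (((hasDerivAt_id z).mul (Complex.hasDerivAt_cosh z)).sub
      (Complex.hasDerivAt_sinh z)).congr_deriv ?_
    simp
  · intro t
    refine ((hasDerivAt_pow 3 t).const_mul (cc / 3)).congr_deriv ?_
    norm_num; ring
  · intro z hz
    rw [norm_mul]
    have := mul_le_mul_of_nonneg_left (norm_sinh_le (hz.trans hv)) (norm_nonneg z)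
    calc ‖z‖ * ‖Complex.sinh z‖ ≤ ‖z‖ * (cc * ‖z‖) := this
      _ = cc * ‖z‖ ^ 2 := by ring
  · simp
  · simp

/-- the centre point -/
noncomputable def zu (u : ℂ) : ℂ := (Real.pi * I + 2 * u) / 19

theorem norm_zu_le {u : ℂ} (hu : ‖u‖ ≤ 1 / 3) : ‖zu u‖ ≤ rr := by
  unfold zu rr
  rw [norm_div]
  have h1 : ‖(Real.pi * I + 2 * u : ℂ)‖ ≤ Real.pi + 2 / 3 := by
    refine (norm_add_le _ _).trans ?_
    rw [norm_mul, norm_mul, Complex.norm_I, Complex.norm_real, Real.norm_of_nonneg Real.pi_pos.le]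
    have : ‖(2:ℂ)‖ = 2 := by simp
    rw [this]; linarith
  have h2 : ‖(19:ℂ)‖ = 19 := by simp
  rw [h2]
  have h3 := Real.pi_lt_d4
  rw [div_le_iff₀ (by norm_num)]
  norm_num at h3 ⊢
  linarith

/-- the basic estimate for differences at `± zu u` -/
theorem diff_le {K κ : ℂ → ℂ} {B e : ℝ → ℝ}
    (hK : ∀ z : ℂ, ‖z‖ ≤ rr → HasDerivAt K (exp (19 * z) * κ z) z)
    (hκ : ∀ z : ℂ, ‖z‖ ≤ rr → ‖κ z‖ ≤ e ‖z‖) (hB : ∀ t, HasDerivAt B (e t) t)
    (hB0 : B 0 = 0) {u : ℂ} (hu : ‖u‖ ≤ 1 / 3) :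
    ‖K (zu u) - K (-zu u)‖ ≤ 2 * cc * B ‖zu u‖ := by
  set z := zu u with hz
  have hzr : ‖z‖ ≤ rr := norm_zu_le hu
  have hs : ∀ s ∈ Icc (0:ℝ) 1, ‖(s:ℂ) * z‖ = s * ‖z‖ := by
    intro s hs
    rw [norm_mul, Complex.norm_real, Real.norm_of_nonneg hs.1]
  have hsr : ∀ s ∈ Icc (0:ℝ) 1, ‖(s:ℂ) * z‖ ≤ rr := by
    intro s hs'
    rw [hs s hs']
    exact (mul_le_of_le_one_left (norm_nonneg _) hs'.2).trans hzr
  have h1 := path_le (k := fun s : ℝ => K ((s:ℂ) * z) - K (-((s:ℂ) * z)))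
    (k' := fun s : ℝ => z * (exp (19 * ((s:ℂ) * z)) * κ ((s:ℂ) * z) +
      exp (19 * (-((s:ℂ) * z))) * κ (-((s:ℂ) * z))))
    (B := fun s => 2 * cc * B (s * ‖z‖)) (B' := fun s => 2 * cc * (e (s * ‖z‖) * ‖z‖)) ?_ ?_ ?_ ?_
  · simpa using h1
  · intro s hs'
    have h2 : HasDerivAt (fun s : ℝ => (s:ℂ) * z) z s := by
      simpa using (Complex.ofRealCLM.hasDerivAt (x := s)).mul_const z
    have h3 := (hK _ (hsr s hs')).scomp s h2
    have h4 := (hK (-((s:ℂ) * z)) (by rw [norm_neg]; exact hsr s hs')).scomp s h2.neg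
    refine (h3.sub h4).congr_deriv ?_
    simp only [smul_eq_mul]; ring
  · intro s
    have h2 : HasDerivAt (fun s : ℝ => s * ‖z‖) ‖z‖ s := by
      simpa using (hasDerivAt_id s).mul_const ‖z‖
    exact ((hB _).comp s h2).const_mul (2 * cc)
  · intro s hs'
    have hk1 := hκ _ (hsr s hs')
    have hk2 := hκ (-((s:ℂ) * z)) (by rw [norm_neg]; exact hsr s hs')
    rw [norm_neg] at hk2
    rw [hs s hs'] at hk1 hk2
    have he : 0 ≤ e (s * ‖z‖) := (norm_nonneg _).trans hk1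
    have hre : (19 * ((s:ℂ) * z)).re = s * (2 * u.re) := by
      rw [hz]; unfold zu
      have : (19:ℂ) * ((s:ℂ) * ((Real.pi * I + 2 * u) / 19)) = (s:ℂ) * (Real.pi * I + 2 * u) := by
        field_simp
      rw [this, re_ofReal_mul]
      simp
    have hre2 : (19 * (-((s:ℂ) * z))).re = -(s * (2 * u.re)) := by
      rw [← hre]; simp
    have hx : |s * (2 * u.re)| ≤ 2 / 3 := by
      rw [abs_mul, abs_mul, abs_of_nonneg hs'.1, abs_of_pos (by norm_num : (0:ℝ) < 2)]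
      have h5 := (Complex.abs_re_le_norm u).trans hu
      have h6 : 0 ≤ |u.re| := abs_nonneg _
      nlinarith [hs'.1, hs'.2]
    have hexp := exp_add_le hx
    rw [norm_mul]
    have h7 : ‖exp (19 * ((s:ℂ) * z)) * κ ((s:ℂ) * z) +
        exp (19 * (-((s:ℂ) * z))) * κ (-((s:ℂ) * z))‖ ≤ 2 * cc * e (s * ‖z‖) := by
      refine (norm_add_le _ _).trans ?_
      rw [norm_mul, norm_mul, Complex.norm_exp, Complex.norm_exp, hre, hre2]
      calc Real.exp (s * (2 * u.re)) * ‖κ ((s:ℂ) * z)‖ +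
            Real.exp (-(s * (2 * u.re))) * ‖κ (-((s:ℂ) * z))‖
          ≤ Real.exp (s * (2 * u.re)) * e (s * ‖z‖) +
            Real.exp (-(s * (2 * u.re))) * e (s * ‖z‖) := by gcongr
        _ = (Real.exp (s * (2 * u.re)) + Real.exp (-(s * (2 * u.re)))) * e (s * ‖z‖) := by ring
        _ ≤ 2 * cc * e (s * ‖z‖) := mul_le_mul_of_nonneg_right hexp he
    calc ‖z‖ * ‖exp (19 * ((s:ℂ) * z)) * κ ((s:ℂ) * z) +
        exp (19 * (-((s:ℂ) * z))) * κ (-((s:ℂ) * z))‖ ≤ ‖z‖ * (2 * cc * e (s * ‖z‖)) :=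
          mul_le_mul_of_nonneg_left h7 (norm_nonneg _)
      _ = 2 * cc * (e (s * ‖z‖) * ‖z‖) := by ring
  · simp [hB0]

end Pool.Agent.HU85
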