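import Pool.Agent.HU85.Core
import Mathlib

set_option autoImplicit false

open Complex Metric Set
open scoped ComplexConjugate

namespace Pool.Agent.HU85

/-- constant in the bound for the nonlinear part of the dilatation -/
noncomputable def CO : ℝ := 251 / 100

theorem hasDerivAt_zu (u : ℂ) : HasDerivAt zu (2 / 19) u := by
  unfold zu
  have h : HasDerivAt (fun u : ℂ => (Real.pi * I + 2 * u) / 19) ((0 + 2 * 1) / 19) u :=
    ((hasDerivAt_const u _).add ((hasDerivAt_id u).const_mul 2)).div_const 19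
  exact h.congr_deriv (by ring)

theorem exp_zu (u : ℂ) : exp (19 * zu u) = -exp (2 * u) := by
  unfold zu
  have : (19:ℂ) * ((Real.pi * I + 2 * u) / 19) = Real.pi * I + 2 * u := by field_simp
  rw [this, Complex.exp_add, Complex.exp_pi_mul_I]; ring

theorem exp_neg_zu (u : ℂ) : exp (19 * -zu u) = -exp (-(2 * u)) := by
  have h := exp_zu u
  have h1 : (19:ℂ) * -zu u = -(19 * zu u) := by ring
  rw [h1, Complex.exp_neg, h, Complex.exp_neg, inv_neg]

theorem zu_re (u : ℂ) : (19 * zu u).re = 2 * u.re := by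
  unfold zu
  have : (19:ℂ) * ((Real.pi * I + 2 * u) / 19) = Real.pi * I + 2 * u := by field_simp
  rw [this]; simp

theorem zu_ne {u : ℂ} (hu : ‖u‖ ≤ 1 / 3) : zu u ≠ 0 := by
  intro h
  have h1 : (Real.pi * I + 2 * u : ℂ) = 0 := by
    unfold zu at h
    have : (19:ℂ) ≠ 0 := by norm_num
    rcases div_eq_zero_iff.1 h with h | h
    · exact h
    · exact absurd h this
  have h2 := congrArg Complex.im h1
  simp at h2
  have h3 : |u.im| ≤ 1 / 3 := (Complex.abs_im_le_norm u).trans hu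
  have h4 := Real.pi_gt_three
  have h5 := (abs_le.1 h3).1
  linarith

theorem EE_nonneg {t : ℝ} (ht : 0 ≤ t) : 0 ≤ EE t := by unfold EE; positivity

theorem EE_mono {s t : ℝ} (hs : 0 ≤ s) (h : s ≤ t) : EE s ≤ EE t := by
  unfold EE; gcongr

theorem BE_mono {s t : ℝ} (hs : 0 ≤ s) (h : s ≤ t) : BE s ≤ BE t := by
  unfold BE; gcongr

theorem BtE_mono {s t : ℝ} (hs : 0 ≤ s) (h : s ≤ t) : BtE s ≤ BtE t := by
  unfold BtE; gcongr

/-- derivative term bound -/
theorem der_le {κ : ℂ → ℂ} {M : ℝ} {u : ℂ} (hu : ‖u‖ ≤ 1 / 3)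
    (h1 : ‖κ (zu u)‖ ≤ M) (h2 : ‖κ (-zu u)‖ ≤ M) :
    ‖exp (19 * zu u) * κ (zu u) + exp (19 * -zu u) * κ (-zu u)‖ ≤ 2 * cc * M := by
  have hM : 0 ≤ M := (norm_nonneg _).trans h1
  have hre2 : (19 * -zu u).re = -(2 * u.re) := by
    rw [← zu_re u]; simp
  have hx : |2 * u.re| ≤ 2 / 3 := by
    rw [abs_mul, abs_of_pos (by norm_num : (0:ℝ) < 2)]
    have h5 := (Complex.abs_re_le_norm u).trans hu
    linarith
  have hexp := exp_add_le hx
  refine (norm_add_le _ _).trans ?_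
  rw [norm_mul, norm_mul, Complex.norm_exp, Complex.norm_exp, zu_re, hre2]
  calc Real.exp (2 * u.re) * ‖κ (zu u)‖ + Real.exp (-(2 * u.re)) * ‖κ (-zu u)‖
      ≤ Real.exp (2 * u.re) * M + Real.exp (-(2 * u.re)) * M := by gcongr
    _ = (Real.exp (2 * u.re) + Real.exp (-(2 * u.re))) * M := by ring
    _ ≤ 2 * cc * M := mul_le_mul_of_nonneg_right hexp hM

/-- **Core lemma.** -/
theorem core {H G η θ : ℂ → ℂ} {w : ℂ} (hw : ‖w‖ ≤ 1)
    (hH : ∀ z : ℂ, ‖z‖ ≤ rr → HasDerivAt H (exp (19 * z) * (1 + η z)) z)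
    (hG : ∀ z : ℂ, ‖z‖ ≤ rr → HasDerivAt G (exp (19 * z) * (w * z + θ z)) z)
    (hη : ∀ z : ℂ, ‖z‖ ≤ rr → ‖η z‖ ≤ EE ‖z‖)
    (hθ : ∀ z : ℂ, ‖z‖ ≤ rr → ‖θ z‖ ≤ ‖z‖ * EE ‖z‖ + CO * (1 - ‖w‖) * ‖z‖ ^ 2) :
    ∃ z₁ z₂ : ℂ, ‖z₁‖ ≤ rr ∧ ‖z₂‖ ≤ rr ∧ z₁ ≠ z₂ ∧
      H z₁ + conj (G z₁) = H z₂ + conj (G z₂) := by
  have hrr : (0:ℝ) ≤ rr := by unfold rr; norm_num
  have hcc : (0:ℝ) < cc := by unfold cc; norm_num
  have hw1 : 0 ≤ 1 - ‖w‖ := by linarith
  have hw0 : 0 ≤ ‖w‖ := norm_nonneg w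
  have hCO : (0:ℝ) ≤ CO := by unfold CO; norm_num
  set K1 : ℂ → ℂ := fun z => H z - exp (19 * z) / 19 with hK1d
  set K2 : ℂ → ℂ := fun z => G z - w * ((z / 19 - 1 / 361) * exp (19 * z)) with hK2d
  have hexp : ∀ z : ℂ, HasDerivAt (fun z => exp (19 * z)) (exp (19 * z) * 19) z := by
    intro z
    have : HasDerivAt (fun z : ℂ => 19 * z) (19 * 1) z := (hasDerivAt_id z).const_mul 19
    simpa using this.cexp
  have hK1 : ∀ z : ℂ, ‖z‖ ≤ rr → HasDerivAt K1 (exp (19 * z) * η z) z := by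
    intro z hz
    refine ((hH z hz).sub ((hexp z).div_const 19)).congr_deriv ?_
    ring
  have hK2 : ∀ z : ℂ, ‖z‖ ≤ rr → HasDerivAt K2 (exp (19 * z) * θ z) z := by
    intro z hz
    have h1 : HasDerivAt (fun z : ℂ => z / 19 - 1 / 361) (1 / 19) z :=
      ((hasDerivAt_id z).div_const 19).sub_const _
    refine ((hG z hz).sub ((h1.mul (hexp z)).const_mul w)).congr_deriv ?_
    ring
  set G1 : ℂ → ℂ := fun u => u - Complex.sinh (2 * u) / 2 +
    19 / 4 * (K1 (zu u) - K1 (-zu u)) with hG1d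
  set G2 : ℂ → ℂ := fun u => -(w / 2) * (zu u * Complex.cosh (2 * u) - Complex.sinh (2 * u) / 19) +
    19 / 4 * (K2 (zu u) - K2 (-zu u)) with hG2d
  set Γ : ℂ → ℂ := fun u => G1 u + conj (G2 u) with hΓd
  set S : Set ℂ := closedBall (0:ℂ) (1 / 3) with hS
  have hmem : ∀ u ∈ S, ‖u‖ ≤ 1 / 3 := fun u hu => by simpa [hS] using hu
  have hmul2 : ∀ u : ℂ, HasDerivAt (fun u : ℂ => 2 * u) 2 u := by
    intro u; simpa using (hasDerivAt_id u).const_mul 2
  have hcosh2 : ∀ u : ℂ, HasDerivAt (fun u : ℂ => Complex.cosh (2 * u))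
      (Complex.sinh (2 * u) * 2) u := fun u => (hmul2 u).ccosh
  have hsinh2 : ∀ u : ℂ, HasDerivAt (fun u : ℂ => Complex.sinh (2 * u))
      (Complex.cosh (2 * u) * 2) u := fun u => (hmul2 u).csinh
  -- derivatives
  have hG1' : ∀ u ∈ S, HasDerivAt G1 (1 - Complex.cosh (2 * u) +
      1 / 2 * (exp (19 * zu u) * η (zu u) + exp (19 * -zu u) * η (-zu u))) u := by
    intro u hu
    have hz := norm_zu_le (hmem u hu)
    have h1 := (hK1 _ hz).comp u (hasDerivAt_zu u)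
    have h2 := (hK1 (-zu u) (by rw [norm_neg]; exact hz)).comp u (hasDerivAt_zu u).neg
    refine ((((hasDerivAt_id u).sub ((hsinh2 u).div_const 2))).add
      ((h1.sub h2).const_mul (19 / 4 : ℂ))).congr_deriv ?_
    ring
  have hG2' : ∀ u ∈ S, HasDerivAt G2 (-w * (zu u * Complex.sinh (2 * u)) +
      1 / 2 * (exp (19 * zu u) * θ (zu u) + exp (19 * -zu u) * θ (-zu u))) u := by
    intro u hu
    have hz := norm_zu_le (hmem u hu)
    have h1 := (hK2 _ hz).comp u (hasDerivAt_zu u)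
    have h2 := (hK2 (-zu u) (by rw [norm_neg]; exact hz)).comp u (hasDerivAt_zu u).neg
    have h3 := (((hasDerivAt_zu u).mul (hcosh2 u)).sub ((hsinh2 u).div_const 19)).const_mul (-(w / 2))
    refine (h3.add ((h1.sub h2).const_mul (19 / 4 : ℂ))).congr_deriv ?_
    ring
  have h2u : ∀ u ∈ S, ‖(2:ℂ) * u‖ ≤ 2 / 3 := by
    intro u hu
    rw [norm_mul]
    have h := hmem u hu
    have : ‖(2:ℂ)‖ = 2 := by simp
    rw [this]; linarith
  -- derivative bounds
  set L1 : ℝ := cc / 2 * (2 / 3) ^ 2 + cc * EE rr with hL1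
  set L2 : ℝ := ‖w‖ * (rr * (cc * (2 / 3))) + cc * (rr * EE rr + CO * (1 - ‖w‖) * rr ^ 2) with hL2
  have hb1 : ∀ u ∈ S, ‖1 - Complex.cosh (2 * u) +
      1 / 2 * (exp (19 * zu u) * η (zu u) + exp (19 * -zu u) * η (-zu u))‖ ≤ L1 := by
    intro u hu
    have hz := norm_zu_le (hmem u hu)
    have hEz : EE ‖zu u‖ ≤ EE rr := EE_mono (norm_nonneg _) hz
    have e1 := (hη _ hz).trans hEz
    have e2 := hη (-zu u) (by rw [norm_neg]; exact hz)
    rw [norm_neg] at e2
    have h1 := der_le (hmem u hu) e1 (e2.trans hEz)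
    have h2 := norm_cosh_sub_one_le (h2u u hu)
    have h3 : ‖1 - Complex.cosh (2 * u)‖ ≤ cc / 2 * (2 / 3) ^ 2 := by
      rw [norm_sub_rev]
      refine h2.trans ?_
      have := h2u u hu
      gcongr
    refine (norm_add_le _ _).trans ?_
    rw [norm_mul]
    have h4 : ‖(1 / 2 : ℂ)‖ = 1 / 2 := by simp
    rw [h4, hL1]
    linarith
  have hb2 : ∀ u ∈ S, ‖-w * (zu u * Complex.sinh (2 * u)) +
      1 / 2 * (exp (19 * zu u) * θ (zu u) + exp (19 * -zu u) * θ (-zu u))‖ ≤ L2 := by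
    intro u hu
    have hz := norm_zu_le (hmem u hu)
    have hEz : ‖zu u‖ * EE ‖zu u‖ + CO * (1 - ‖w‖) * ‖zu u‖ ^ 2 ≤
        rr * EE rr + CO * (1 - ‖w‖) * rr ^ 2 := by
      have h1 : EE ‖zu u‖ ≤ EE rr := EE_mono (norm_nonneg _) hz
      have h2 := EE_nonneg (norm_nonneg (zu u))
      gcongr
    have e1 := (hθ _ hz).trans hEz
    have e2 := hθ (-zu u) (by rw [norm_neg]; exact hz)
    rw [norm_neg] at e2
    have h1 := der_le (hmem u hu) e1 (e2.trans hEz)
    have h2 := norm_sinh_le (h2u u hu)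
    refine (norm_add_le _ _).trans ?_
    rw [norm_mul, norm_mul, norm_mul, norm_neg]
    have h4 : ‖(1 / 2 : ℂ)‖ = 1 / 2 := by simp
    rw [h4, hL2]
    have h5 : ‖w‖ * (‖zu u‖ * ‖Complex.sinh (2 * u)‖) ≤ ‖w‖ * (rr * (cc * (2 / 3))) := by
      have h6 : ‖Complex.sinh (2 * u)‖ ≤ cc * (2 / 3) :=
        h2.trans (mul_le_mul_of_nonneg_left (h2u u hu) hcc.le)
      gcongr
    linarith
  -- numerical facts
  have hnum1 : L1 + L2 ≤ 21 / 25 := by
    rw [hL1, hL2]
    unfold EE rr cc CO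
    nlinarith
  have hconv : Convex ℝ S := convex_closedBall _ _
  have hlip : ∀ u ∈ S, ∀ v ∈ S, ‖Γ u - Γ v‖ ≤ 21 / 25 * ‖u - v‖ := by
    intro u hu v hv
    have h1 := hconv.norm_image_sub_le_of_norm_hasDerivWithin_le
      (fun x hx => (hG1' x hx).hasDerivWithinAt) hb1 hv hu
    have h2 := hconv.norm_image_sub_le_of_norm_hasDerivWithin_le
      (fun x hx => (hG2' x hx).hasDerivWithinAt) hb2 hv hu
    have h3 : Γ u - Γ v = (G1 u - G1 v) + conj (G2 u - G2 v) := by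
      simp only [hΓd, map_sub]; ring
    rw [h3]
    refine (norm_add_le _ _).trans ?_
    rw [RCLike.norm_conj]
    have h4 := mul_le_mul_of_nonneg_right hnum1 (norm_nonneg (u - v))
    linarith
  -- self map
  have hmaps : ∀ u ∈ S, ‖Γ u‖ ≤ 1 / 3 := by
    intro u hu
    have hu3 := hmem u hu
    have hz := norm_zu_le hu3
    have hv := h2u u hu
    have a1 : ‖u - Complex.sinh (2 * u) / 2‖ ≤ cc / 12 * (2 / 3) ^ 3 := by
      have h1 := norm_sinh_sub_le hv
      have h2 : u - Complex.sinh (2 * u) / 2 = -(1 / 2) * (Complex.sinh (2 * u) - 2 * u) := by ring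
      rw [h2, norm_mul]
      have h3 : ‖(-(1 / 2) : ℂ)‖ = 1 / 2 := by simp
      rw [h3]
      have h4 : cc / 6 * ‖(2:ℂ) * u‖ ^ 3 ≤ cc / 6 * (2 / 3) ^ 3 := by gcongr
      linarith
    have a2 : ‖K1 (zu u) - K1 (-zu u)‖ ≤ 2 * cc * BE rr := by
      have h1 := diff_le hK1 hη hasDerivAt_BE (by simp [BE]) hu3
      refine h1.trans ?_
      have := BE_mono (norm_nonneg _) hz
      gcongr
    have a3 : ‖K2 (zu u) - K2 (-zu u)‖ ≤ 2 * cc * (BtE rr + CO * (1 - ‖w‖) * (rr ^ 3 / 3)) := by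
      have hB : ∀ t : ℝ, HasDerivAt (fun t => BtE t + CO * (1 - ‖w‖) * (t ^ 3 / 3))
          (t * EE t + CO * (1 - ‖w‖) * t ^ 2) t := by
        intro t
        refine ((hasDerivAt_BtE t).add
          (((hasDerivAt_pow 3 t).div_const 3).const_mul (CO * (1 - ‖w‖)))).congr_deriv ?_
        norm_num
      have h1 := diff_le hK2 hθ hB (by simp [BtE]) hu3
      refine h1.trans ?_
      have := BtE_mono (norm_nonneg _) hz
      gcongr
    have a4 : ‖zu u * Complex.cosh (2 * u) - Complex.sinh (2 * u) / 19‖ ≤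
        (Real.pi * cc + cc / 3 * (2 / 3) ^ 3) / 19 := by
      have h1 : zu u * Complex.cosh (2 * u) - Complex.sinh (2 * u) / 19 =
          (Real.pi * I * Complex.cosh (2 * u) +
            (2 * u * Complex.cosh (2 * u) - Complex.sinh (2 * u))) / 19 := by
        unfold zu; ring
      rw [h1, norm_div]
      have h2 : ‖(19:ℂ)‖ = 19 := by simp
      rw [h2]
      gcongr
      refine (norm_add_le _ _).trans ?_
      have h3 := norm_mul_cosh_sub_le hv
      have h4 : cc / 3 * ‖(2:ℂ) * u‖ ^ 3 ≤ cc / 3 * (2 / 3) ^ 3 := by gcongr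
      have h5 : ‖(Real.pi * I * Complex.cosh (2 * u) : ℂ)‖ ≤ Real.pi * cc := by
        rw [norm_mul, norm_mul, Complex.norm_I, Complex.norm_real,
          Real.norm_of_nonneg Real.pi_pos.le, mul_one]
        exact mul_le_mul_of_nonneg_left (norm_cosh_le hv) Real.pi_pos.le
      linarith
    have b1 : ‖G1 u‖ ≤ cc / 12 * (2 / 3) ^ 3 + 19 / 4 * (2 * cc * BE rr) := by
      simp only [hG1d]
      refine (norm_add_le _ _).trans ?_
      rw [norm_mul]
      have : ‖(19 / 4 : ℂ)‖ = 19 / 4 := by simp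
      rw [this]
      linarith
    have b2 : ‖G2 u‖ ≤ ‖w‖ / 2 * ((Real.pi * cc + cc / 3 * (2 / 3) ^ 3) / 19) +
        19 / 4 * (2 * cc * (BtE rr + CO * (1 - ‖w‖) * (rr ^ 3 / 3))) := by
      simp only [hG2d]
      refine (norm_add_le _ _).trans ?_
      rw [norm_mul, norm_mul, norm_neg, norm_div]
      have h1 : ‖(19 / 4 : ℂ)‖ = 19 / 4 := by simp
      have h2 : ‖(2 : ℂ)‖ = 2 := by simp
      rw [h1, h2]
      have := mul_le_mul_of_nonneg_left a4 (by positivity : 0 ≤ ‖w‖ / 2)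
      linarith
    have hpi := Real.pi_lt_d4
    have hnum : cc / 12 * (2 / 3) ^ 3 + 19 / 4 * (2 * cc * BE rr) +
        (‖w‖ / 2 * ((Real.pi * cc + cc / 3 * (2 / 3) ^ 3) / 19) +
        19 / 4 * (2 * cc * (BtE rr + CO * (1 - ‖w‖) * (rr ^ 3 / 3)))) ≤ 1 / 3 := by
      have h1 : ‖w‖ / 2 * ((Real.pi * cc + cc / 3 * (2 / 3) ^ 3) / 19) ≤
          ‖w‖ / 2 * ((31416 / 10000 * cc + cc / 3 * (2 / 3) ^ 3) / 19) := by
        have : Real.pi ≤ 31416 / 10000 := by
          norm_num at hpi ⊢; linarith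
        gcongr
      refine (add_le_add_right (add_le_add_left h1 _) _).trans ?_
      unfold BE BtE rr cc CO
      nlinarith
    simp only [hΓd]
    refine (norm_add_le _ _).trans ?_
    rw [RCLike.norm_conj]
    linarith
  -- fixed point
  have hmapsTo : MapsTo Γ S S := by
    intro u hu
    rw [hS, mem_closedBall_zero_iff]
    exact hmaps u hu
  have hcontr : ContractingWith (21 / 25 : NNReal) (hmapsTo.restrict Γ S S) := by
    constructor
    · rw [← NNReal.coe_lt_coe]; norm_num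
    · apply LipschitzWith.of_dist_le_mul
      intro x y
      rw [Subtype.dist_eq, Subtype.dist_eq, dist_eq_norm, dist_eq_norm]
      have := hlip x.1 x.2 y.1 y.2
      simpa using this
  have h0S : (0:ℂ) ∈ S := by simp [hS]
  obtain ⟨u, huS, hfix, _⟩ := hcontr.exists_fixedPoint' isClosed_closedBall.isComplete hmapsTo h0S
    (edist_ne_top _ _)
  have hz := norm_zu_le (hmem u huS)
  refine ⟨zu u, -zu u, hz, by rw [norm_neg]; exact hz, ?_, ?_⟩
  · intro h
    have h1 : (2:ℂ) * zu u = 0 := by linear_combination h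
    exact zu_ne (hmem u huS) ((mul_eq_zero.1 h1).resolve_left two_ne_zero)
  · have hfix' : G1 u + conj (G2 u) = u := hfix
    have c1 : G1 u = u + 19 / 4 * (H (zu u) - H (-zu u)) := by
      simp only [hG1d, hK1d]
      rw [exp_zu, exp_neg_zu]
      unfold Complex.sinh
      ring
    have c2 : G2 u = 19 / 4 * (G (zu u) - G (-zu u)) := by
      simp only [hG2d, hK2d]
      rw [exp_zu, exp_neg_zu]
      unfold Complex.sinh Complex.cosh
      ring
    rw [c1, c2] at hfix'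
    have h3 : conj (19 / 4 * (G (zu u) - G (-zu u))) =
        19 / 4 * (conj (G (zu u)) - conj (G (-zu u))) := by
      have h4 : (19 / 4 : ℂ) = ((19 / 4 : ℝ) : ℂ) := by push_cast; norm_num
      rw [map_mul, map_sub, h4, Complex.conj_ofReal]
    rw [h3] at hfix'
    linear_combination (4 / 19) * hfix'

end Pool.Agent.HU85
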