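import Pool.Agent.HU85.Core
import Mathlib

/-!
Rigidity of the logarithm of the derivative of the analytic part at an extremal point.
-/

set_option autoImplicit false

open Complex Metric Set Filter Topology
open scoped ComplexConjugate

namespace Pool.Agent.HU85

/-- growth majorant -/
noncomputable def VV (M t : ℝ) : ℝ :=
  M * (t + t ^ 3 / 3 + 4 * t ^ 5 / 15) + (t ^ 2 / 2 + t ^ 4 / 4 + 2 * t ^ 6 / 9)

theorem hasDerivAt_VV (M t : ℝ) :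
    HasDerivAt (VV M) ((M + t) * (1 + t ^ 2 + 4 / 3 * t ^ 4)) t := by
  unfold VV
  have h1 := hasDerivAt_id t
  have h2 := hasDerivAt_pow 2 t
  have h3 := hasDerivAt_pow 3 t
  have h4 := hasDerivAt_pow 4 t
  have h5 := hasDerivAt_pow 5 t
  have h6 := hasDerivAt_pow 6 t
  refine ((((h1.add (h3.div_const 3)).add ((h5.const_mul 4).div_const 15)).const_mul M).add
    (((h2.div_const 2).add (h4.div_const 4)).add ((h6.const_mul 2).div_const 9))).congr_deriv ?_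
  norm_num; ring

/-- the standing hypothesis on the logarithm `L` of the derivative -/
structure LogHyp (M : ℝ) (L p : ℂ → ℂ) : Prop where
  der : ∀ z : ℂ, ‖z‖ < 1 → HasDerivAt L (p z) z
  zero : L 0 = 0
  p0 : p 0 = M
  bd : ∀ z : ℂ, ‖z‖ < 1 → ‖(1 - (‖z‖:ℂ) ^ 2) * p z - 2 * conj z‖ ≤ M + ‖z‖

theorem LogHyp.growth {M : ℝ} {L p : ℂ → ℂ} (hM : 0 ≤ M) (h : LogHyp M L p) {z : ℂ}
    (hz : ‖z‖ ≤ 1 / 2) :
    ‖L z + (Real.log (1 - ‖z‖ ^ 2) : ℂ)‖ ≤ VV M ‖z‖ := by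
  have hmem : ∀ s ∈ Icc (0:ℝ) 1, ‖(s:ℂ) * z‖ = s * ‖z‖ := by
    intro s hs
    rw [norm_mul, Complex.norm_real, Real.norm_of_nonneg hs.1]
  have hle : ∀ s ∈ Icc (0:ℝ) 1, s * ‖z‖ ≤ 1 / 2 := by
    intro s hs
    exact (mul_le_of_le_one_left (norm_nonneg _) hs.2).trans hz
  have hpos : ∀ s ∈ Icc (0:ℝ) 1, 0 < 1 - (s * ‖z‖) ^ 2 := by
    intro s hs
    have h1 := hle s hs
    have h2 : 0 ≤ s * ‖z‖ := mul_nonneg hs.1 (norm_nonneg _)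
    nlinarith
  have h1 := path_le
    (k := fun s : ℝ => L ((s:ℂ) * z) + ((Real.log (1 - (s * ‖z‖) ^ 2) : ℝ) : ℂ))
    (k' := fun s : ℝ => z * p ((s:ℂ) * z) +
      ((-(2 * (s * ‖z‖) * ‖z‖) / (1 - (s * ‖z‖) ^ 2) : ℝ) : ℂ))
    (B := fun s => VV M (s * ‖z‖))
    (B' := fun s => (M + s * ‖z‖) * (1 + (s * ‖z‖) ^ 2 + 4 / 3 * (s * ‖z‖) ^ 4) * ‖z‖) ?_ ?_ ?_ ?_
  · simpa using h1
  · intro s hs
    have h2 : HasDerivAt (fun s : ℝ => (s:ℂ) * z) z s := by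
      simpa using (Complex.ofRealCLM.hasDerivAt (x := s)).mul_const z
    have h3 := (h.der ((s:ℂ) * z) (by rw [hmem s hs]; linarith [hle s hs])).scomp s h2
    have h4 : HasDerivAt (fun s : ℝ => 1 - (s * ‖z‖) ^ 2) (-(2 * (s * ‖z‖) * ‖z‖)) s := by
      have h5 : HasDerivAt (fun s : ℝ => s * ‖z‖) ‖z‖ s := by
        simpa using (hasDerivAt_id s).mul_const ‖z‖
      have h6 := (h5.pow 2).const_sub 1
      refine h6.congr_deriv ?_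
      norm_num
    have h7 := (h4.log (hpos s hs).ne').ofReal_comp
    refine (h3.add h7).congr_deriv ?_
    rw [smul_eq_mul]
  · intro s
    have h2 : HasDerivAt (fun s : ℝ => s * ‖z‖) ‖z‖ s := by
      simpa using (hasDerivAt_id s).mul_const ‖z‖
    exact (hasDerivAt_VV M _).comp s h2
  · intro s hs
    set ζ : ℂ := (s:ℂ) * z with hζ
    have hζn : ‖ζ‖ = s * ‖z‖ := hmem s hs
    have hζ1 : ‖ζ‖ < 1 := by rw [hζn]; linarith [hle s hs]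
    have hD := hpos s hs
    have hbd := h.bd ζ hζ1
    have hDne : ((1 - (s * ‖z‖) ^ 2 : ℝ) : ℂ) ≠ 0 := by exact_mod_cast hD.ne'
    have hzz : z * conj z = ((‖z‖ ^ 2 : ℝ) : ℂ) := by
      rw [Complex.mul_conj, Complex.normSq_eq_norm_sq]
    have key : z * p ζ + ((-(2 * (s * ‖z‖) * ‖z‖) / (1 - (s * ‖z‖) ^ 2) : ℝ) : ℂ) =
        z * ((1 - (‖ζ‖:ℂ) ^ 2) * p ζ - 2 * conj ζ) / ((1 - (s * ‖z‖) ^ 2 : ℝ) : ℂ) := by
      rw [eq_div_iff hDne]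
      have h2 : (((-(2 * (s * ‖z‖) * ‖z‖) / (1 - (s * ‖z‖) ^ 2) : ℝ) : ℂ)) *
          ((1 - (s * ‖z‖) ^ 2 : ℝ) : ℂ) = ((-(2 * (s * ‖z‖) * ‖z‖) : ℝ) : ℂ) := by
        rw [← Complex.ofReal_mul, div_mul_cancel₀ _ hD.ne']
      rw [add_mul, h2, hζn]
      have h3 : conj ζ = (s:ℂ) * conj z := by rw [hζ, map_mul, Complex.conj_ofReal]
      rw [h3]
      push_cast
      push_cast at hzz
      linear_combination (2 * (s:ℂ)) * hzz
    rw [key, norm_div, norm_mul, Complex.norm_real, Real.norm_of_nonneg hD.le]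
    rw [div_le_iff₀ hD]
    have hζ0 : 0 ≤ s * ‖z‖ := mul_nonneg hs.1 (norm_nonneg _)
    have h5 : 1 ≤ (1 + (s * ‖z‖) ^ 2 + 4 / 3 * (s * ‖z‖) ^ 4) * (1 - (s * ‖z‖) ^ 2) := by
      have h6 := hle s hs
      have h7 : (s * ‖z‖) ^ 2 ≤ 1 / 4 := by nlinarith
      have h8 : 0 ≤ (s * ‖z‖) ^ 4 := by positivity
      nlinarith
    have h9 : ‖(1 - (‖ζ‖:ℂ) ^ 2) * p ζ - 2 * conj ζ‖ ≤ M + s * ‖z‖ := by
      rw [← hζn]; exact hbd
    calc ‖z‖ * ‖(1 - (‖ζ‖:ℂ) ^ 2) * p ζ - 2 * conj ζ‖ ≤ ‖z‖ * (M + s * ‖z‖) :=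
          mul_le_mul_of_nonneg_left h9 (norm_nonneg _)
      _ = ‖z‖ * (M + s * ‖z‖) * 1 := by ring
      _ ≤ ‖z‖ * (M + s * ‖z‖) *
          ((1 + (s * ‖z‖) ^ 2 + 4 / 3 * (s * ‖z‖) ^ 4) * (1 - (s * ‖z‖) ^ 2)) := by
        apply mul_le_mul_of_nonneg_left h5
        apply mul_nonneg (norm_nonneg _)
        linarith
      _ = _ := by ring
  · simp [h.zero, VV]

end Pool.Agent.HU85
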