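import Pool.Agent.HU85.Lam
import Pool.Agent.HU85.Core2
import Mathlib

/-!
Borel-Carathéodory type estimate and the normalised statement.
-/

set_option autoImplicit false

open Complex Metric Set Filter Topology
open scoped ComplexConjugate

namespace Pool.Agent.HU85

/-- Borel–Carathéodory estimate with control of the first derivative. -/
theorem bc_bound {F : ℂ → ℂ} {β δ : ℝ} (hβ : 0 < β) (hF : DifferentiableOn ℂ F (ball 0 1))
    (hre : ∀ z ∈ ball (0:ℂ) 1, (F z).re ≤ β) (h0 : F 0 = 0) (hd : ‖deriv F 0‖ ≤ δ)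
    {z : ℂ} (hz : ‖z‖ < 1) : ‖F z‖ * (1 - ‖z‖ ^ 2) ≤ ‖z‖ * (δ + 2 * β * ‖z‖) := by
  have h0b : (0:ℂ) ∈ ball (0:ℂ) 1 := by simp
  have hzb : z ∈ ball (0:ℂ) 1 := by simpa using hz
  have hne : ∀ x ∈ ball (0:ℂ) 1, 2 * (β:ℂ) - F x ≠ 0 := by
    intro x hx h
    have h1 := congrArg Complex.re h
    simp at h1
    have := hre x hx
    linarith
  set q : ℂ → ℂ := fun x => F x / (2 * β - F x) with hq
  have hqd : DifferentiableOn ℂ q (ball 0 1) := by
    intro x hx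
    exact (hF x hx).div ((hF x hx).const_sub _) (hne x hx)
  have hq0 : q 0 = 0 := by simp [hq, h0]
  have hq1 : ∀ x ∈ ball (0:ℂ) 1, ‖q x‖ ≤ 1 := by
    intro x hx
    simp only [hq]
    rw [norm_div, div_le_one (norm_pos_iff.mpr (hne x hx))]
    have h1 : ‖F x‖ ^ 2 ≤ ‖2 * (β:ℂ) - F x‖ ^ 2 := by
      rw [Complex.sq_norm, Complex.sq_norm, normSq_apply, normSq_apply]
      simp
      nlinarith [hre x hx]
    exact (sq_le_sq₀ (norm_nonneg _) (norm_nonneg _)).mp h1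
  have hqder : HasDerivAt q (deriv F 0 / (2 * β)) 0 := by
    have h1 := hasDerivAt_of hF h0b
    have h2 := h1.div (h1.const_sub (2 * (β:ℂ))) (hne 0 h0b)
    refine h2.congr_deriv ?_
    have hβc : (β:ℂ) ≠ 0 := by exact_mod_cast hβ.ne'
    simp only [h0]
    field_simp
    ring
  set n : ℂ → ℂ := dslope q 0 with hn
  have hnd : DifferentiableOn ℂ n (ball 0 1) :=
    (Complex.differentiableOn_dslope (isOpen_ball.mem_nhds h0b)).2 hqd
  have hn1 : ∀ x ∈ ball (0:ℂ) 1, ‖n x‖ ≤ 1 := by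
    intro x hx
    have hmaps : MapsTo q (ball 0 1) (closedBall (q 0) 1) := by
      intro y hy
      rw [hq0, mem_closedBall_zero_iff]
      exact hq1 y hy
    have h := norm_dslope_le_div_of_mapsTo_ball hqd hmaps hx
    rwa [div_one] at h
  have hn0 : n 0 = deriv F 0 / (2 * β) := by
    rw [hn, dslope_same, hqder.deriv]
  have hsp := schwarz_pick_zero hnd hn1 hz
  have hqz : ‖q z‖ = ‖z‖ * ‖n z‖ := by
    have h2 := sub_smul_dslope q 0 z
    rw [hq0, sub_zero, sub_zero, smul_eq_mul] at h2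
    rw [← h2, norm_mul]
  set x := ‖n z‖ with hx
  set c0 := ‖n 0‖ with hc0
  set ρ := ‖z‖ with hρ
  have hx0 : 0 ≤ x := norm_nonneg _
  have hc00 : 0 ≤ c0 := norm_nonneg _
  have hρ0 : 0 ≤ ρ := norm_nonneg _
  have hx1 : x ≤ 1 := hn1 z hzb
  have hc1 : c0 ≤ 1 := hn1 0 h0b
  have hR : (conj (n 0) * n z).re ≤ c0 * x := by
    refine (Complex.re_le_norm _).trans ?_
    rw [norm_mul, RCLike.norm_conj]
  have hsq1 : ‖n z - n 0‖ ^ 2 = x ^ 2 + c0 ^ 2 - 2 * (conj (n 0) * n z).re := by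
    rw [hx, hc0, Complex.sq_norm, Complex.sq_norm, Complex.sq_norm, normSq_apply, normSq_apply,
      normSq_apply]
    simp
    ring
  have hsq2 : ‖1 - conj (n 0) * n z‖ ^ 2 = 1 + c0 ^ 2 * x ^ 2 - 2 * (conj (n 0) * n z).re := by
    rw [hx, hc0, Complex.sq_norm, Complex.sq_norm, Complex.sq_norm, normSq_apply, normSq_apply,
      normSq_apply]
    simp
    ring
  have hineq : x * (1 + ρ * c0) ≤ c0 + ρ := by
    have h1 : ‖n z - n 0‖ ^ 2 ≤ ρ ^ 2 * ‖1 - conj (n 0) * n z‖ ^ 2 := by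
      rw [← mul_pow]
      exact pow_le_pow_left₀ (norm_nonneg _) hsp 2
    rw [hsq1, hsq2] at h1
    have h2 : (x - c0) ^ 2 ≤ (ρ * (1 - c0 * x)) ^ 2 := by
      have h3 : 0 ≤ 1 - ρ ^ 2 := by nlinarith
      nlinarith
    have h4 : 0 ≤ ρ * (1 - c0 * x) := by
      apply mul_nonneg hρ0
      nlinarith
    have h5 := abs_le_of_sq_le_sq' h2 h4
    nlinarith [h5.2]
  have hFq : F z * (1 + q z) = 2 * β * q z := by
    simp only [hq]
    have := hne z hzb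
    field_simp
    ring
  have hFn : ‖F z‖ * (1 - ‖q z‖) ≤ 2 * β * ‖q z‖ := by
    have h1 := congrArg norm hFq
    rw [norm_mul, norm_mul, norm_mul, Complex.norm_real, Real.norm_of_nonneg hβ.le] at h1
    have h2 : 1 - ‖q z‖ ≤ ‖1 + q z‖ := by
      have h3 := norm_sub_norm_le (1:ℂ) (-q z)
      rw [norm_neg, norm_one, sub_neg_eq_add] at h3
      exact h3
    have h4 : ‖(2:ℂ)‖ = 2 := by simp
    rw [h4] at h1
    calc ‖F z‖ * (1 - ‖q z‖) ≤ ‖F z‖ * ‖1 + q z‖ :=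
          mul_le_mul_of_nonneg_left h2 (norm_nonneg _)
      _ = _ := h1
  have hc0δ : 2 * β * c0 ≤ δ := by
    have h1 : c0 = ‖deriv F 0‖ / (2 * β) := by
      rw [hc0, hn0, norm_div, norm_mul, Complex.norm_real, Real.norm_of_nonneg hβ.le]
      simp
    rw [h1, mul_div_cancel₀ _ (by positivity)]
    exact hd
  rw [hqz] at hFn
  have hF0 : 0 ≤ ‖F z‖ := norm_nonneg _
  have e1 : ‖F z‖ * (1 - ρ ^ 2) ≤ (1 + ρ * c0) * (‖F z‖ * (1 - ρ * x)) := by
    have h1 : ρ * (x * (1 + ρ * c0)) ≤ ρ * (c0 + ρ) := mul_le_mul_of_nonneg_left hineq hρ0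
    have h2 : 1 - ρ ^ 2 ≤ (1 + ρ * c0) * (1 - ρ * x) := by nlinarith
    calc ‖F z‖ * (1 - ρ ^ 2) ≤ ‖F z‖ * ((1 + ρ * c0) * (1 - ρ * x)) :=
          mul_le_mul_of_nonneg_left h2 hF0
      _ = _ := by ring
  have e2 : (1 + ρ * c0) * (‖F z‖ * (1 - ρ * x)) ≤ (1 + ρ * c0) * (2 * β * (ρ * x)) :=
    mul_le_mul_of_nonneg_left hFn (by positivity)
  have e3 : (1 + ρ * c0) * (2 * β * (ρ * x)) ≤ 2 * β * ρ * (c0 + ρ) := by
    have := mul_le_mul_of_nonneg_left hineq (by positivity : 0 ≤ 2 * β * ρ)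
    nlinarith
  have e4 : 2 * β * ρ * (c0 + ρ) ≤ ρ * (δ + 2 * β * ρ) := by
    have := mul_le_mul_of_nonneg_left hc0δ hρ0
    nlinarith
  linarith

/-- the logarithm bound -/
theorem neg_log_le {x : ℝ} (h0 : 0 ≤ x) (h1 : x ≤ 1 / 4) :
    -Real.log (1 - x) ≤ x + x ^ 2 / 2 + 12 / 25 * x ^ 3 := by
  have h := Real.abs_log_sub_add_sum_range_le (x := x) (by rw [abs_of_nonneg h0]; linarith) 4
  rw [abs_of_nonneg h0] at h
  have h2 := neg_le_of_abs_le h
  norm_num [Finset.sum_range_succ] at h2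
  have h3 : x ^ 5 / (1 - x) ≤ 4 / 3 * x ^ 5 := by
    rw [div_le_iff₀ (by linarith)]
    have : 0 ≤ x ^ 5 := by positivity
    nlinarith
  have h4 : x ^ 4 ≤ x ^ 3 / 4 := by
    have : 0 ≤ x ^ 3 := by positivity
    nlinarith
  have h5 : x ^ 5 ≤ x ^ 3 / 16 := by
    have : 0 ≤ x ^ 3 := by positivity
    have h6 : x ^ 2 ≤ 1 / 16 := by nlinarith
    nlinarith
  have h7 : 0 ≤ x ^ 3 := by positivity
  linarith

/-- majorant of the real part -/
noncomputable def bb (M t : ℝ) : ℝ :=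
  M * (t ^ 2 / 3 + 4 * t ^ 4 / 15) + (t / 2 + 3 / 4 * t ^ 3 + 158 / 225 * t ^ 5)

/-- the auxiliary function -/
noncomputable def Phi (M : ℝ) (L : ℂ → ℂ) (z : ℂ) : ℂ := dslope L 0 z - z - M

theorem LogHyp.mul_Phi {M : ℝ} {L p : ℂ → ℂ} (h : LogHyp M L p) (z : ℂ) :
    z * Phi M L z = L z - z ^ 2 - M * z := by
  have h2 := sub_smul_dslope L 0 z
  rw [h.zero, sub_zero, sub_zero, smul_eq_mul] at h2
  unfold Phi
  rw [← h2]; ring

theorem LogHyp.Phi_zero {M : ℝ} {L p : ℂ → ℂ} (h : LogHyp M L p) : Phi M L 0 = 0 := by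
  unfold Phi
  rw [dslope_same, (h.der 0 (by simp)).deriv, h.p0]; simp

theorem LogHyp.re_Phi_le {M : ℝ} {L p : ℂ → ℂ} (hM : 0 ≤ M) (h : LogHyp M L p) {z : ℂ}
    (hz : ‖z‖ ≤ 1 / 2) : (Phi M L z).re ≤ bb M ‖z‖ := by
  rcases eq_or_ne z 0 with rfl | hz0
  · rw [h.Phi_zero]; simp [bb]
  have ht : 0 < ‖z‖ := norm_pos_iff.mpr hz0
  set t := ‖z‖ with htdef
  have hg := h.growth hM hz
  have hlog := neg_log_le (x := t ^ 2) (by positivity) (by nlinarith)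
  have hlog0 : 0 ≤ -Real.log (1 - t ^ 2) := by
    have h1 : Real.log (1 - t ^ 2) ≤ 0 := Real.log_nonpos (by nlinarith) (by nlinarith [sq_nonneg t])
    linarith
  -- t^2 Re Phi = Re (conj z * (z * Phi))
  have h1 : (conj z * (z * Phi M L z)).re = t ^ 2 * (Phi M L z).re := by
    have : conj z * (z * Phi M L z) = ((t ^ 2 : ℝ) : ℂ) * Phi M L z := by
      rw [← mul_assoc, mul_comm (conj z) z, Complex.mul_conj, Complex.normSq_eq_norm_sq]
    rw [this, re_ofReal_mul]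
  have h2 : (conj z * (z * Phi M L z)).re =
      (conj z * (L z + (Real.log (1 - t ^ 2) : ℂ))).re - Real.log (1 - t ^ 2) * z.re -
        t ^ 2 * z.re - M * t ^ 2 := by
    rw [h.mul_Phi]
    have e1 : (conj z * (L z - z ^ 2 - M * z)) =
        conj z * (L z + (Real.log (1 - t ^ 2) : ℂ)) - ((Real.log (1 - t ^ 2) : ℝ) : ℂ) * conj z
          - ((t ^ 2 : ℝ) : ℂ) * z - ((M * t ^ 2 : ℝ) : ℂ) := by
      have : ((t ^ 2 : ℝ) : ℂ) = z * conj z := by
        rw [Complex.mul_conj, Complex.normSq_eq_norm_sq]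
      rw [Complex.ofReal_mul, this]
      ring
    rw [e1, sub_re, sub_re, sub_re, re_ofReal_mul, re_ofReal_mul, ofReal_re, conj_re]
  have h3 : (conj z * (L z + (Real.log (1 - t ^ 2) : ℂ))).re ≤ t * VV M t := by
    refine (Complex.re_le_norm _).trans ?_
    rw [norm_mul, RCLike.norm_conj]
    exact mul_le_mul_of_nonneg_left hg ht.le
  have h4 : (-Real.log (1 - t ^ 2) - t ^ 2) * z.re ≤ (t ^ 4 / 2 + 12 / 25 * t ^ 6) * t := by
    have h5 : 0 ≤ -Real.log (1 - t ^ 2) - t ^ 2 := by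
      have := Real.log_le_sub_one_of_pos (x := 1 - t ^ 2) (by nlinarith)
      linarith
    have h6 : -Real.log (1 - t ^ 2) - t ^ 2 ≤ t ^ 4 / 2 + 12 / 25 * t ^ 6 := by
      have e : (t ^ 2) ^ 2 = t ^ 4 := by ring
      have e2 : (t ^ 2) ^ 3 = t ^ 6 := by ring
      rw [e, e2] at hlog
      linarith
    have h7 : z.re ≤ t := Complex.re_le_norm z
    calc (-Real.log (1 - t ^ 2) - t ^ 2) * z.re ≤ (-Real.log (1 - t ^ 2) - t ^ 2) * t :=
          mul_le_mul_of_nonneg_left h7 h5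
      _ ≤ _ := mul_le_mul_of_nonneg_right h6 ht.le
  have h8 : t ^ 2 * (Phi M L z).re ≤ t * VV M t - M * t ^ 2 + (t ^ 4 / 2 + 12 / 25 * t ^ 6) * t := by
    rw [← h1, h2]
    nlinarith
  have h9 : t * VV M t - M * t ^ 2 + (t ^ 4 / 2 + 12 / 25 * t ^ 6) * t = t ^ 2 * bb M t := by
    unfold VV bb; ring
  rw [h9] at h8
  exact le_of_mul_le_mul_left h8 (by positivity)

theorem bb_mono {M s t : ℝ} (hM : 0 ≤ M) (hs : 0 ≤ s) (h : s ≤ t) : bb M s ≤ bb M t := by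
  unfold bb; gcongr

/-- bound of the real part in the half disc -/
theorem LogHyp.re_Phi_le' {M : ℝ} {L p : ℂ → ℂ} (hM : 0 ≤ M) (h : LogHyp M L p) {z : ℂ}
    (hz : ‖z‖ ≤ 1 / 2) : (Phi M L z).re ≤ M / 10 + 3657 / 10000 := by
  refine (h.re_Phi_le hM hz).trans ((bb_mono hM (norm_nonneg _) hz).trans ?_)
  unfold bb
  norm_num
  linarith

theorem LogHyp.Phi_diff {M : ℝ} {L p : ℂ → ℂ} (h : LogHyp M L p) :
    DifferentiableOn ℂ (Phi M L) (ball 0 1) := by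
  have hL : DifferentiableOn ℂ L (ball 0 1) := fun z hz =>
    (h.der z (by simpa using hz)).differentiableAt.differentiableWithinAt
  have h0b : (0:ℂ) ∈ ball (0:ℂ) 1 := by simp
  have h1 := (Complex.differentiableOn_dslope (isOpen_ball.mem_nhds h0b)).2 hL
  exact (h1.sub differentiableOn_id).sub_const _

theorem LogHyp.deriv_Phi {M : ℝ} {L p : ℂ → ℂ} (hM : 0 ≤ M) (h : LogHyp M L p) :
    ‖deriv (Phi M L) 0‖ ≤ 1 / 2 := by
  set d := deriv (Phi M L) 0 with hd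
  rcases eq_or_ne d 0 with h0 | h0
  · rw [h0]; simp
  have hdn : 0 < ‖d‖ := norm_pos_iff.mpr h0
  have h0b : (0:ℂ) ∈ ball (0:ℂ) 1 := by simp
  have hder : HasDerivAt (Phi M L) d 0 := hasDerivAt_of h.Phi_diff h0b
  set u : ℂ := conj d / ‖d‖ with hu
  have hun : ‖u‖ = 1 := by
    rw [hu, norm_div, RCLike.norm_conj, Complex.norm_real, Real.norm_of_nonneg hdn.le,
      div_self hdn.ne']
  have hud : (d * u).re = ‖d‖ := by
    have : d * u = ((‖d‖ : ℝ) : ℂ) := by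
      rw [hu, mul_div_assoc', Complex.mul_conj, Complex.normSq_eq_norm_sq]
      have : ((‖d‖:ℝ):ℂ) ≠ 0 := by exact_mod_cast hdn.ne'
      push_cast
      field_simp
    rw [this, ofReal_re]
  have h2 : HasDerivAt (fun s : ℝ => (s:ℂ) * u) u (0:ℝ) := by
    simpa using (Complex.ofRealCLM.hasDerivAt (x := (0:ℝ))).mul_const u
  have h3 : HasDerivAt (fun s : ℝ => Phi M L ((s:ℂ) * u)) (d * u) (0:ℝ) := by
    have h4 := HasDerivAt.scomp (g₁ := Phi M L) (h := fun s : ℝ => (s:ℂ) * u) (g₁' := d) (0:ℝ)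
      (by simpa using hder) h2
    refine h4.congr_deriv ?_
    rw [smul_eq_mul, mul_comm]
  have h5 : HasDerivAt (fun s : ℝ => (Phi M L ((s:ℂ) * u)).re) (d * u).re (0:ℝ) := by
    exact (Complex.reCLM.hasFDerivAt.comp_hasDerivAt (0:ℝ) h3)
  rw [hud] at h5
  have h6 := h5.tendsto_slope_zero
  have h7 := h6.mono_left (nhdsWithin_mono (0:ℝ) (s := Ioi 0) (fun x hx => ne_of_gt hx))
  have h8 : Tendsto (fun t : ℝ => 1 / 2 + (M + 1) * t) (𝓝[>] 0) (𝓝 (1 / 2)) := by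
    have : Tendsto (fun t : ℝ => 1 / 2 + (M + 1) * t) (𝓝 0) (𝓝 (1 / 2 + (M + 1) * 0)) := by
      apply Continuous.tendsto; fun_prop
    rw [mul_zero, add_zero] at this
    exact this.mono_left nhdsWithin_le_nhds
  refine le_of_tendsto_of_tendsto h7 h8 ?_
  have h9 : ∀ᶠ t : ℝ in 𝓝[>] 0, t ∈ Ioo (0:ℝ) (1 / 2) :=
    Ioo_mem_nhdsGT (by norm_num)
  filter_upwards [h9] with t ht
  have h10 : ‖(t:ℂ) * u‖ = t := by
    rw [norm_mul, hun, mul_one, Complex.norm_real, Real.norm_of_nonneg ht.1.le]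
  have h11 := h.re_Phi_le hM (z := (t:ℂ) * u) (by rw [h10]; exact ht.2.le)
  rw [h10] at h11
  simp only [zero_add, smul_eq_mul]
  have h12 : (Phi M L (((0:ℝ):ℂ) * u)).re = 0 := by
    simp [h.Phi_zero]
  rw [h12, sub_zero]
  have h13 : bb M t ≤ t * (1 / 2 + (M + 1) * t) := by
    unfold bb
    have ht0 := ht.1
    have ht1 := ht.2
    have e1 : t ^ 3 ≤ t ^ 2 / 2 := by nlinarith [sq_nonneg t]
    have e2 : t ^ 4 ≤ t ^ 2 / 4 := by nlinarith [sq_nonneg t]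
    have e3 : t ^ 5 ≤ t ^ 2 / 8 := by nlinarith [sq_nonneg t]
    have e4 : 0 ≤ t ^ 2 := sq_nonneg t
    have e5 : M * (t ^ 2 / 3 + 4 * t ^ 4 / 15) ≤ M * t ^ 2 := by
      apply mul_le_mul_of_nonneg_left _ hM
      linarith
    nlinarith
  calc t⁻¹ * (Phi M L ((t:ℂ) * u)).re ≤ t⁻¹ * (t * (1 / 2 + (M + 1) * t)) :=
        mul_le_mul_of_nonneg_left (h11.trans h13) (inv_nonneg.mpr ht.1.le)
    _ = 1 / 2 + (M + 1) * t := by
        rw [← mul_assoc, inv_mul_cancel₀ ht.1.ne', one_mul]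

/-- bound of `Phi` -/
theorem LogHyp.norm_Phi {M : ℝ} {L p : ℂ → ℂ} (hM : 0 ≤ M) (h : LogHyp M L p) {z : ℂ}
    (hz : ‖z‖ < 1 / 2) :
    ‖Phi M L z‖ * (1 - 4 * ‖z‖ ^ 2) ≤ ‖z‖ / 2 + 8 * (M / 10 + 3657 / 10000) * ‖z‖ ^ 2 := by
  set F : ℂ → ℂ := fun ζ => Phi M L (ζ / 2) with hF
  have h2n : ‖(2:ℂ)‖ = 2 := by simp
  have hFd : DifferentiableOn ℂ F (ball 0 1) := by
    intro x hx
    have hx1 : x / 2 ∈ ball (0:ℂ) 1 := by
      rw [mem_ball_zero_iff] at hx ⊢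
      rw [norm_div, h2n]; linarith
    have h1 := (h.Phi_diff.differentiableAt (isOpen_ball.mem_nhds hx1))
    have h2 : DifferentiableAt ℂ (fun ζ : ℂ => ζ / 2) x := by fun_prop
    exact (h1.comp x h2).differentiableWithinAt
  have hder : HasDerivAt F (deriv (Phi M L) 0 / 2) 0 := by
    have h0b : (0:ℂ) ∈ ball (0:ℂ) 1 := by simp
    have h1 : HasDerivAt (Phi M L) (deriv (Phi M L) 0) ((0:ℂ) / 2) := by
      rw [zero_div]; exact hasDerivAt_of h.Phi_diff h0b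
    have h2 : HasDerivAt (fun ζ : ℂ => ζ / 2) (1 / 2) 0 := (hasDerivAt_id (0:ℂ)).div_const 2
    refine (h1.comp (0:ℂ) h2).congr_deriv ?_
    ring
  have h1 := bc_bound (F := F) (β := M / 10 + 3657 / 10000) (δ := 1 / 4) (by positivity) hFd ?_ ?_ ?_
    (z := 2 * z) ?_
  · have h3 : F (2 * z) = Phi M L z := by
      simp only [hF]
      congr 1
      ring
    rw [h3, norm_mul, h2n] at h1
    nlinarith
  · intro x hx
    apply h.re_Phi_le' hM
    rw [mem_ball_zero_iff] at hx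
    rw [norm_div, h2n]; linarith
  · simp [hF, h.Phi_zero]
  · rw [hder.deriv, norm_div, h2n]
    linarith [h.deriv_Phi hM]
  · rw [norm_mul, h2n]; linarith

end Pool.Agent.HU85
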