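import Pool.Agent.HU85.Lam2
import Mathlib

/-!
The normalised statement: no map with `H' = exp L`, `G' = Ω exp L` as in `LogHyp` with `M ≥ 19`
is injective.
-/

set_option autoImplicit false

open Complex Metric Set Filter Topology
open scoped ComplexConjugate

namespace Pool.Agent.HU85

theorem LogHyp.sub_lin {M : ℝ} {L p : ℂ → ℂ} (hM : 19 ≤ M) (h : LogHyp M L p) {z : ℂ}
    (hz : ‖z‖ ≤ rr) :
    ‖L ((19 / M : ℝ) * z) - 19 * z‖ ≤
      3 / 2 * ‖z‖ ^ 2 + 1853 / 100 * ‖z‖ ^ 3 + 442 / 5 * ‖z‖ ^ 5 := by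
  have hM0 : 0 < M := by linarith
  set s : ℝ := 19 / M with hs
  have hs0 : 0 < s := by positivity
  have hs1 : s ≤ 1 := by rw [hs, div_le_one hM0]; exact hM
  have hMs : M * s = 19 := by rw [hs]; field_simp
  set ζ : ℂ := (s:ℂ) * z with hζ
  have ht0 : 0 ≤ ‖z‖ := norm_nonneg _
  have hζn : ‖ζ‖ = s * ‖z‖ := by
    rw [hζ, norm_mul, Complex.norm_real, Real.norm_of_nonneg hs0.le]
  set t := ‖z‖ with ht
  have hrr : t ≤ 401 / 2000 := hz
  have hst : s * t ≤ t := mul_le_of_le_one_left ht0 hs1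
  have hst0 : 0 ≤ s * t := by positivity
  have h1 := h.norm_Phi hM0.le (z := ζ) (by rw [hζn]; linarith)
  have h2 : L ζ - 19 * z = ζ * (Phi M L ζ + ζ) := by
    have h3 := h.mul_Phi ζ
    have h4 : (M:ℂ) * ζ = 19 * z := by
      rw [hζ, ← mul_assoc, ← Complex.ofReal_mul, hMs]; simp
    rw [h4] at h3
    linear_combination -h3
  rw [h2, norm_mul]
  have h5 : ‖Phi M L ζ + ζ‖ ≤ ‖Phi M L ζ‖ + ‖ζ‖ := norm_add_le _ _
  set P := ‖Phi M L ζ‖ with hP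
  have hP0 : 0 ≤ P := norm_nonneg _
  rw [hζn] at h1 h5 ⊢
  -- s * t * P * (1 - 4 t^2) ≤ t^2/2 + K t^3
  have h6 : s * t * P * (1 - 4 * t ^ 2) ≤ t ^ 2 / 2 + 181256 / 10000 * t ^ 3 := by
    have e1 : 1 - 4 * t ^ 2 ≤ 1 - 4 * (s * t) ^ 2 := by nlinarith
    have e2 : s * t * (P * (1 - 4 * t ^ 2)) ≤ s * t * (P * (1 - 4 * (s * t) ^ 2)) := by gcongr
    have e3 : s * t * (P * (1 - 4 * (s * t) ^ 2)) ≤
        s * t * (s * t / 2 + 8 * (M / 10 + 3657 / 10000) * (s * t) ^ 2) :=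
      mul_le_mul_of_nonneg_left h1 hst0
    have e4 : s * t * (s * t / 2 + 8 * (M / 10 + 3657 / 10000) * (s * t) ^ 2) =
        (s * t) ^ 2 / 2 + (4 / 5 * (M * s) + 8 * (3657 / 10000) * s) * s ^ 2 * t ^ 3 := by ring
    rw [hMs] at e4
    have e5 : (s * t) ^ 2 ≤ t ^ 2 := by nlinarith
    have e6 : (4 / 5 * 19 + 8 * (3657 / 10000) * s) * s ^ 2 ≤ 181256 / 10000 := by
      have : s ^ 2 ≤ 1 := by nlinarith
      have e7 : (4 / 5 * 19 + 8 * (3657 / 10000) * s) * s ^ 2 ≤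
        (4 / 5 * 19 + 8 * (3657 / 10000) * 1) * 1 := by gcongr
      norm_num at e7 ⊢
      linarith
    have e8 : (4 / 5 * 19 + 8 * (3657 / 10000) * s) * s ^ 2 * t ^ 3 ≤ 181256 / 10000 * t ^ 3 := by
      gcongr
    calc s * t * P * (1 - 4 * t ^ 2) = s * t * (P * (1 - 4 * t ^ 2)) := by ring
      _ ≤ _ := by linarith
  have h7 : s * t * P ≤ t ^ 2 / 2 + 1853 / 100 * t ^ 3 + 442 / 5 * t ^ 5 := by
    have e1 : 0 < 1 - 4 * t ^ 2 := by nlinarith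
    have e2 : t ^ 2 / 2 + 181256 / 10000 * t ^ 3 ≤
        (t ^ 2 / 2 + 1853 / 100 * t ^ 3 + 442 / 5 * t ^ 5) * (1 - 4 * t ^ 2) := by
      have : 0 ≤ t ^ 3 * (4044 / 10000 - 2 * t - 4 * (1853 / 100) * t ^ 2 + 442 / 5 * t ^ 2
          - 4 * (442 / 5) * t ^ 4) := by
        apply mul_nonneg (by positivity)
        have k1 : t ^ 2 ≤ (401 / 2000) * t := by nlinarith
        have k2 : t ^ 2 ≤ (401 / 2000) ^ 2 := by nlinarith
        have k3 : 4 * (442 / 5) * t ^ 4 ≤ 4 * (442 / 5) * (401 / 2000) ^ 2 * t ^ 2 := by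
          nlinarith [sq_nonneg t]
        nlinarith
      nlinarith
    have e3 := h6.trans e2
    exact le_of_mul_le_mul_right e3 e1
  have h8 : (s * t) ^ 2 ≤ t ^ 2 := by nlinarith
  calc s * t * ‖Phi M L ζ + ζ‖ ≤ s * t * (P + s * t) := mul_le_mul_of_nonneg_left h5 hst0
    _ = s * t * P + (s * t) ^ 2 := by ring
    _ ≤ _ := by linarith

theorem norm_exp_sub_one_le' {v : ℂ} (hv : ‖v‖ ≤ 477 / 2000) :
    ‖exp v - 1‖ ≤ 113 / 100 * ‖v‖ := by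
  have h1 := Complex.norm_exp_sub_sum_le_exp_norm_sub_sum v 1
  simp at h1
  have h2 := Real.exp_bound' (x := ‖v‖) (norm_nonneg _) (by linarith) (n := 4) (by norm_num)
  norm_num [Finset.sum_range_succ, Nat.factorial] at h2
  have h0 := norm_nonneg v
  set x := ‖v‖ with hx
  have h3 : 1 + x + x ^ 2 / 2 + x ^ 3 / 6 + x ^ 4 * 5 / 96 ≤ 1 + 113 / 100 * x := by
    have e1 : x ^ 2 ≤ 477 / 2000 * x := by nlinarith
    have e2 : x ^ 3 ≤ (477 / 2000) ^ 2 * x := by nlinarith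
    have e3 : x ^ 4 ≤ (477 / 2000) ^ 3 * x := by nlinarith
    nlinarith
  linarith

theorem LogHyp.eta_le {M : ℝ} {L p : ℂ → ℂ} (hM : 19 ≤ M) (h : LogHyp M L p) {z : ℂ}
    (hz : ‖z‖ ≤ rr) : ‖exp (L ((19 / M : ℝ) * z) - 19 * z) - 1‖ ≤ EE ‖z‖ := by
  have h1 := h.sub_lin hM hz
  have ht0 : 0 ≤ ‖z‖ := norm_nonneg _
  have hrr : ‖z‖ ≤ 401 / 2000 := hz
  set t := ‖z‖ with ht
  have h2 : 3 / 2 * t ^ 2 + 1853 / 100 * t ^ 3 + 442 / 5 * t ^ 5 ≤ 477 / 2000 := by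
    have e1 : t ^ 2 ≤ (401 / 2000) ^ 2 := by gcongr
    have e2 : t ^ 3 ≤ (401 / 2000) ^ 3 := by gcongr
    have e3 : t ^ 5 ≤ (401 / 2000) ^ 5 := by gcongr
    norm_num at e1 e2 e3
    linarith
  refine (norm_exp_sub_one_le' (h1.trans h2)).trans ?_
  refine (mul_le_mul_of_nonneg_left h1 (by norm_num)).trans ?_
  unfold EE
  have e1 : 0 ≤ t ^ 2 := by positivity
  have e2 : 0 ≤ t ^ 3 := by positivity
  have e3 : 0 ≤ t ^ 5 := by positivity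
  linarith

/-- control of the dilatation -/
theorem dil_le {Ω : ℂ → ℂ} (hΩ : DifferentiableOn ℂ Ω (ball 0 1))
    (hΩ1 : ∀ z ∈ ball (0:ℂ) 1, ‖Ω z‖ ≤ 1) (hΩ0 : Ω 0 = 0) {s : ℝ} (hs0 : 0 < s) (hs1 : s ≤ 1) :
    ∃ w : ℂ, ‖w‖ ≤ 1 ∧ ∀ z : ℂ, ‖z‖ ≤ rr →
      ‖Ω (s * z) - w * z‖ ≤ CO * (1 - ‖w‖) * ‖z‖ ^ 2 := by
  have h0b : (0:ℂ) ∈ ball (0:ℂ) 1 := by simp
  set σ : ℂ → ℂ := dslope Ω 0 with hσ
  have hσd : DifferentiableOn ℂ σ (ball 0 1) :=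
    (Complex.differentiableOn_dslope (isOpen_ball.mem_nhds h0b)).2 hΩ
  have hσ1 : ∀ x ∈ ball (0:ℂ) 1, ‖σ x‖ ≤ 1 := by
    intro x hx
    have hmaps : MapsTo Ω (ball 0 1) (closedBall (Ω 0) 1) := by
      intro y hy
      rw [hΩ0, mem_closedBall_zero_iff]
      exact hΩ1 y hy
    have h := norm_dslope_le_div_of_mapsTo_ball hΩ hmaps hx
    rwa [div_one] at h
  have hw0 : ‖σ 0‖ ≤ 1 := hσ1 0 h0b
  have hwn : ‖(s:ℂ) * σ 0‖ = s * ‖σ 0‖ := by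
    rw [norm_mul, Complex.norm_real, Real.norm_of_nonneg hs0.le]
  refine ⟨s * σ 0, ?_, ?_⟩
  · rw [hwn]
    nlinarith [norm_nonneg (σ 0)]
  · intro z hz
    have ht0 : 0 ≤ ‖z‖ := norm_nonneg _
    have hrr : ‖z‖ ≤ 401 / 2000 := hz
    set ζ : ℂ := (s:ℂ) * z with hζ
    have hζn : ‖ζ‖ = s * ‖z‖ := by
      rw [hζ, norm_mul, Complex.norm_real, Real.norm_of_nonneg hs0.le]
    have hst : s * ‖z‖ ≤ ‖z‖ := mul_le_of_le_one_left ht0 hs1
    have hζ1 : ‖ζ‖ < 1 := by rw [hζn]; linarith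
    have h1 := schwarz_pick_zero hσd hσ1 hζ1
    have h2 : Ω ζ - s * σ 0 * z = ζ * (σ ζ - σ 0) := by
      have h3 := sub_smul_dslope Ω 0 ζ
      rw [hΩ0, sub_zero, sub_zero, smul_eq_mul] at h3
      rw [← h3, hζ]; ring
    rw [h2, norm_mul, hwn]
    set D := ‖σ ζ - σ 0‖ with hD
    have hD0 : 0 ≤ D := norm_nonneg _
    have h4 : ‖1 - conj (σ 0) * σ ζ‖ ≤ (1 - ‖σ 0‖ ^ 2) + ‖σ 0‖ * D := by
      have e1 : 1 - conj (σ 0) * σ ζ = ((1 - ‖σ 0‖ ^ 2 : ℝ) : ℂ) - conj (σ 0) * (σ ζ - σ 0) := by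
        have : σ 0 * conj (σ 0) = ((‖σ 0‖ ^ 2 : ℝ) : ℂ) := by
          rw [Complex.mul_conj, Complex.normSq_eq_norm_sq]
        push_cast
        push_cast at this
        linear_combination -this
      rw [e1]
      refine (norm_sub_le _ _).trans ?_
      rw [norm_mul, RCLike.norm_conj, Complex.norm_real, Real.norm_of_nonneg]
      nlinarith [norm_nonneg (σ 0)]
    set c := ‖σ 0‖ with hc
    have hc0 : 0 ≤ c := norm_nonneg _
    have h5 : D ≤ s * ‖z‖ * ((1 - c ^ 2) + c * D) := by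
      refine h1.trans ?_
      rw [hζn]
      exact mul_le_mul_of_nonneg_left h4 (by positivity)
    have h6 : D ≤ s * ‖z‖ * (CO * (1 - c)) := by
      -- D (1 - stc) ≤ st (1-c)(1+c)
      have e1 : D * (1 - s * ‖z‖ * c) ≤ s * ‖z‖ * ((1 - c) * (1 + c)) := by nlinarith
      have e2 : 1 + c ≤ CO * (1 - s * ‖z‖ * c) := by
        unfold CO
        have : s * ‖z‖ * c ≤ 401 / 2000 * c := by
          apply mul_le_mul_of_nonneg_right _ hc0
          linarith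
        nlinarith
      have e3 : 0 < 1 - s * ‖z‖ * c := by
        have : s * ‖z‖ * c ≤ 401 / 2000 * c := by
          apply mul_le_mul_of_nonneg_right _ hc0
          linarith
        nlinarith
      have e4 : s * ‖z‖ * ((1 - c) * (1 + c)) ≤
          s * ‖z‖ * (CO * (1 - c)) * (1 - s * ‖z‖ * c) := by
        have e5 : (1 - c) * (1 + c) ≤ (1 - c) * (CO * (1 - s * ‖z‖ * c)) :=
          mul_le_mul_of_nonneg_left e2 (by linarith)
        calc s * ‖z‖ * ((1 - c) * (1 + c)) ≤ s * ‖z‖ * ((1 - c) * (CO * (1 - s * ‖z‖ * c))) :=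
              mul_le_mul_of_nonneg_left e5 (by positivity)
          _ = _ := by ring
      exact le_of_mul_le_mul_right (e1.trans e4) e3
    have hCO : 0 < CO := by unfold CO; norm_num
    have h7 : s * ‖z‖ * D ≤ s * ‖z‖ * (s * ‖z‖ * (CO * (1 - c))) :=
      mul_le_mul_of_nonneg_left h6 (by positivity)
    rw [hζn]
    refine h7.trans ?_
    have h8 : s ^ 2 * (1 - c) ≤ 1 - s * c := by
      have e1 : s ^ 2 ≤ s := by nlinarith
      have e2 : s ^ 2 * (1 - c) ≤ s * (1 - c) := mul_le_mul_of_nonneg_right e1 (by linarith)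
      linarith
    calc s * ‖z‖ * (s * ‖z‖ * (CO * (1 - c))) = CO * (s ^ 2 * (1 - c)) * ‖z‖ ^ 2 := by ring
      _ ≤ CO * (1 - s * c) * ‖z‖ ^ 2 := by gcongr

/-- **Normalised statement.** -/
theorem norm_contra {M : ℝ} (hM : 19 ≤ M) {L p Ω H G : ℂ → ℂ} (hL : LogHyp M L p)
    (hΩ : DifferentiableOn ℂ Ω (ball 0 1)) (hΩ1 : ∀ z ∈ ball (0:ℂ) 1, ‖Ω z‖ ≤ 1) (hΩ0 : Ω 0 = 0)
    (hH : ∀ z : ℂ, ‖z‖ < 1 → HasDerivAt H (exp (L z)) z)
    (hG : ∀ z : ℂ, ‖z‖ < 1 → HasDerivAt G (Ω z * exp (L z)) z) :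
    ∃ z₁ z₂ : ℂ, ‖z₁‖ < 1 ∧ ‖z₂‖ < 1 ∧ z₁ ≠ z₂ ∧ H z₁ + conj (G z₁) = H z₂ + conj (G z₂) := by
  have hM0 : 0 < M := by linarith
  set s : ℝ := 19 / M with hs
  have hs0 : 0 < s := by positivity
  have hs1 : s ≤ 1 := by rw [hs, div_le_one hM0]; exact hM
  have hsc : (s:ℂ) ≠ 0 := by exact_mod_cast hs0.ne'
  obtain ⟨w, hw1, hw⟩ := dil_le hΩ hΩ1 hΩ0 hs0 hs1
  have hlt : ∀ z : ℂ, ‖z‖ ≤ rr → ‖(s:ℂ) * z‖ < 1 := by
    intro z hz
    rw [norm_mul, Complex.norm_real, Real.norm_of_nonneg hs0.le]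
    have : s * ‖z‖ ≤ ‖z‖ := mul_le_of_le_one_left (norm_nonneg _) hs1
    unfold rr at hz
    linarith
  have hsz : ∀ z : ℂ, HasDerivAt (fun z : ℂ => (s:ℂ) * z) s z := by
    intro z
    simpa using (hasDerivAt_id z).const_mul (s:ℂ)
  have c1 : ∀ z : ℂ, ‖z‖ ≤ rr → HasDerivAt (fun z => H (s * z) / s)
      (exp (19 * z) * (1 + (exp (L (s * z) - 19 * z) - 1))) z := by
    intro z hz
    have h3 := ((hH _ (hlt z hz)).comp z (hsz z)).div_const (s:ℂ)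
    refine h3.congr_deriv ?_
    rw [mul_div_assoc, div_self hsc, mul_one]
    have : L (s * z) = 19 * z + (L (s * z) - 19 * z) := by ring
    rw [show (1 + (exp (L (s * z) - 19 * z) - 1)) = exp (L (s * z) - 19 * z) by ring,
      ← Complex.exp_add, ← this]
  have c2 : ∀ z : ℂ, ‖z‖ ≤ rr → HasDerivAt (fun z => G (s * z) / s)
      (exp (19 * z) * (w * z +
        ((Ω (s * z) - w * z) + Ω (s * z) * (exp (L (s * z) - 19 * z) - 1)))) z := by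
    intro z hz
    have h3 := ((hG _ (hlt z hz)).comp z (hsz z)).div_const (s:ℂ)
    refine h3.congr_deriv ?_
    rw [mul_div_assoc, div_self hsc, mul_one]
    have h4 : L (s * z) = 19 * z + (L (s * z) - 19 * z) := by ring
    have h5 : exp (L (s * z)) = exp (19 * z) * exp (L (s * z) - 19 * z) := by
      rw [← Complex.exp_add, ← h4]
    rw [h5]; ring
  have c4 : ∀ z : ℂ, ‖z‖ ≤ rr →
      ‖(Ω (s * z) - w * z) + Ω (s * z) * (exp (L (s * z) - 19 * z) - 1)‖ ≤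
        ‖z‖ * EE ‖z‖ + CO * (1 - ‖w‖) * ‖z‖ ^ 2 := by
    intro z hz
    refine (norm_add_le _ _).trans ?_
    have h3 := hw z hz
    have h4 := hL.eta_le hM hz
    have h5 : ‖Ω (s * z)‖ ≤ ‖z‖ := by
      refine (schwarz hΩ hΩ1 hΩ0 (hlt z hz)).trans ?_
      rw [norm_mul, Complex.norm_real, Real.norm_of_nonneg hs0.le]
      exact mul_le_of_le_one_left (norm_nonneg _) hs1
    rw [norm_mul]
    have h6 : ‖Ω (s * z)‖ * ‖exp (L (s * z) - 19 * z) - 1‖ ≤ ‖z‖ * EE ‖z‖ :=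
      mul_le_mul h5 h4 (norm_nonneg _) (norm_nonneg _)
    linarith
  obtain ⟨z₁, z₂, h1, h2, hne, heq⟩ := core (H := fun z => H (s * z) / s)
    (G := fun z => G (s * z) / s) hw1 c1 c2 (fun z hz => hL.eta_le hM hz) c4
  refine ⟨s * z₁, s * z₂, hlt z₁ h1, hlt z₂ h2, ?_, ?_⟩
  · intro h; exact hne (mul_left_cancel₀ hsc h)
  · simp only [map_div₀, Complex.conj_ofReal] at heq
    field_simp at heq
    exact heq

end Pool.Agent.HU85
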